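import Pool.Agent.H56.DR.Rep
import Pool.Agent.H54.AR.Rep

/-!
# The representation of an Artin group, labels two allowed

If every generator has a finite label at least three then the representation by transvections is injective on the
subgroups generated by two generators with a finite label, up to the degree.
-/

set_option autoImplicit false

namespace Pool.Agent.H54.AR2

open Pool.Agent.H52.PAG Pool.Agent.H54.AR
open Pool.Agent.H56.DR
open Pool.Agent.H56.DC (mem_par_singleton)

variable {B K : Type} [Fintype B] [DecidableEq B] [CommRing K]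

/-- the data: an embedding of `K` in `ℝ`, elements `lam i j` with the images `2 cos (π / M i j)`, an order; every generator
has a finite label at least three -/
structure Dat2 (K : Type) [CommRing K] (M : CoxeterMatrix B) where
  /-- the embedding -/
  φ : K →+* ℝ
  φinj : Function.Injective φ
  /-- the numbers `2 cos (π / m)` -/
  lam : B → B → K
  /-- an order of the generators -/
  ord : B → ℕ
  inj : Function.Injective ord
  nz : ∀ i, ∃ t, i ≠ t ∧ 3 ≤ M i t
  hlam : ∀ i j, i ≠ j → M i j ≠ 0 → φ (lam i j) = LL (M i j)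

theorem LL_two : LL 2 = 0 := by
  unfold LL
  rw [Nat.cast_ofNat, Real.cos_pi_div_two, mul_zero]

/-- the products of two transvections which commute -/
theorem Em_mul {a : B → B → K} {i j : B} (h : a j i = 0) : Em a i * Em a j = 0 := by
  ext b t
  rw [Matrix.mul_apply, Matrix.zero_apply]
  refine Finset.sum_eq_zero fun u _ => ?_
  show (if b = i then a u i else 0) * (if u = j then a t j else 0) = 0
  by_cases hu : u = j
  · subst hu
    by_cases hb : b = i
    · rw [if_pos hb, h, zero_mul]
    · rw [if_neg hb, zero_mul]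
  · rw [if_neg hu, mul_zero]

/-- the powers of a transvection -/
def tpw (a : B → B → K) (s : B) (h : a s s = 0) : Multiplicative ℤ →* GL B K where
  toFun k :=
    { val := 1 + (Multiplicative.toAdd k : ℤ) • Em a s
      inv := 1 - (Multiplicative.toAdd k : ℤ) • Em a s
      val_inv := by
        have := Em_sq a h
        rw [mul_sub, mul_one, add_mul, one_mul, smul_mul_smul_comm, this, smul_zero]
        abel
      inv_val := by
        have := Em_sq a h
        rw [mul_add, mul_one, sub_mul, one_mul, smul_mul_smul_comm, this, smul_zero]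
        abel }
  map_one' := by
    apply Units.ext
    show 1 + (0 : ℤ) • Em a s = 1
    rw [zero_smul, add_zero]
  map_mul' k l := by
    apply Units.ext
    show 1 + (Multiplicative.toAdd k + Multiplicative.toAdd l : ℤ) • Em a s =
      (1 + (Multiplicative.toAdd k : ℤ) • Em a s) * (1 + (Multiplicative.toAdd l : ℤ) • Em a s)
    have := Em_sq a h
    rw [mul_add, mul_one, add_mul, one_mul, smul_mul_smul_comm, this, smul_zero, add_zero, add_smul,
      add_assoc]

theorem Tu_zpow (a : B → B → K) (s : B) (h : a s s = 0) (k : ℤ) :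
    ((Tu a s h ^ k : GL B K) : Matrix B B K) = 1 + k • Em a s := by
  have h1 : tpw a s h (Multiplicative.ofAdd 1) = Tu a s h := by
    apply Units.ext
    show 1 + (1 : ℤ) • Em a s = 1 + Em a s
    rw [one_smul]
  have h2 : tpw a s h (Multiplicative.ofAdd k) = Tu a s h ^ k := by
    rw [← h1, ← map_zpow, ← ofAdd_zsmul, smul_eq_mul, mul_one]
  rw [← h2]
  rfl

theorem mem_closure_pair' {G : Type} [Group G] {x y : G} (h : Commute x y) {g : G}
    (hg : g ∈ Subgroup.closure {x, y}) : ∃ k l : ℤ, g = x ^ k * y ^ l := by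
  induction hg using Subgroup.closure_induction with
  | mem z hz =>
    rcases hz with rfl | hz
    · exact ⟨1, 0, by rw [zpow_one, zpow_zero, mul_one]⟩
    · have hz : z = y := hz
      subst hz
      exact ⟨0, 1, by rw [zpow_one, zpow_zero, one_mul]⟩
  | one => exact ⟨0, 0, by rw [zpow_zero, zpow_zero, mul_one]⟩
  | mul a b _ _ ha hb =>
    obtain ⟨k, l, rfl⟩ := ha
    obtain ⟨k', l', rfl⟩ := hb
    refine ⟨k + k', l + l', ?_⟩
    have h1 : y ^ l * x ^ k' = x ^ k' * y ^ l := ((h.zpow_zpow k' l).symm).eq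
    rw [zpow_add, zpow_add]
    calc x ^ k * y ^ l * (x ^ k' * y ^ l') = x ^ k * (y ^ l * x ^ k') * y ^ l' := by group
      _ = x ^ k * x ^ k' * (y ^ l * y ^ l') := by rw [h1]; group
  | inv a _ ha =>
    obtain ⟨k, l, rfl⟩ := ha
    refine ⟨-k, -l, ?_⟩
    rw [mul_inv_rev, ← zpow_neg, ← zpow_neg]
    exact ((h.zpow_zpow (-k) (-l)).symm).eq

namespace Dat2

variable {M : CoxeterMatrix B} (D : Dat2 K M)

/-- the form -/
def a : B → B → K := aa D.lam D.ord

theorem a_self (i : B) : D.a i i = 0 := aa_self _ _ i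

omit [Fintype B] [DecidableEq B] in
theorem lt_or (i j : B) (h : i ≠ j) : D.ord j < D.ord i ∨ D.ord i < D.ord j :=
  (lt_or_gt_of_ne fun e => h (D.inj e)).symm

theorem val {i j : B} (h : D.ord j < D.ord i) (hm : M i j ≠ 0) :
    D.φ (D.a j i) = LL (M i j) ∧ D.φ (D.a i j) = -LL (M i j) := by
  have hij : j ≠ i := by
    rintro rfl
    omega
  have hm' : M j i ≠ 0 := by rwa [M.symmetric]
  have h1 := D.hlam j i hij hm'
  rw [M.symmetric j i] at h1
  obtain ⟨h5, h6⟩ := aa_lt D.lam D.ord h
  refine ⟨?_, ?_⟩
  · show D.φ (aa D.lam D.ord j i) = _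
    rw [h5, h1]
  · show D.φ (aa D.lam D.ord i j) = _
    rw [h6, map_neg, h1]

theorem val' {i j : B} (hij : i ≠ j) (hm : 3 ≤ M i j) : D.a i j ≠ 0 := by
  have h4 := LL_pos hm
  rcases D.lt_or i j hij with h | h
  · obtain ⟨-, h2⟩ := D.val h (by omega)
    intro e
    rw [e, map_zero] at h2
    linarith
  · rw [M.symmetric] at hm h4
    obtain ⟨h1, -⟩ := D.val h (by omega)
    intro e
    rw [e, map_zero] at h1
    linarith

theorem val2 {i j : B} (hij : i ≠ j) (hm : M i j = 2) : D.a i j = 0 := by
  apply D.φinj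
  rw [map_zero]
  rcases D.lt_or i j hij with h | h
  · obtain ⟨-, h2⟩ := D.val h (by omega)
    rw [h2, hm, LL_two, neg_zero]
  · rw [M.symmetric] at hm
    obtain ⟨h1, -⟩ := D.val h (by omega)
    rw [h1, hm, LL_two]

omit [Fintype B] [DecidableEq B] in
theorem two_or {i j : B} (hij : i ≠ j) (hm : M i j ≠ 0) : M i j = 2 ∨ 3 ≤ M i j := by
  have h1 : M i j ≠ 1 := M.off_diagonal i j hij
  have h2 : M.M i j = M i j := rfl
  omega

variable [IsDomain K]

theorem braid_lt {i j : B} (h : D.ord j < D.ord i) (hm : M i j ≠ 0) :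
    alt (Tm D.a i) (Tm D.a j) (M i j) = alt (Tm D.a j) (Tm D.a i) (M i j) := by
  have hij : i ≠ j := by rintro rfl; omega
  rcases two_or hij hm with h2 | h2
  · have e1 : Em D.a i * Em D.a j = 0 := Em_mul (D.val2 hij.symm (by rw [M.symmetric]; exact h2))
    have e2 : Em D.a j * Em D.a i = 0 := Em_mul (D.val2 hij h2)
    rw [h2]
    simp only [alt, mul_one]
    rw [Tm, Tm]
    simp only [mul_add, add_mul, mul_one, one_mul, e1, e2, add_zero]
    abel
  · obtain ⟨h1, h2'⟩ := D.val h hm
    have h3 := D.val' hij h2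
    have h4 := D.val' hij.symm (by rw [M.symmetric]; exact h2)
    have h5 := (relR_fst (D.a_self i) (D.a_self j) h1).alt (relR_snd (D.a_self i) (D.a_self j) h2')
      (M i j)
    have h6 := (relR_snd (D.a_self i) (D.a_self j) h2').alt (relR_fst (D.a_self i) (D.a_self j) h1)
      (M i j)
    rw [← braid_G2 (by omega)] at h6
    exact h5.inj D.φinj (D.a_self i) (D.a_self j) h3 h4 h6

/-- the transvections -/
def T (i : B) : GL B K := Tu D.a i (D.a_self i)

theorem braid (i j : B) (hm : M i j ≠ 0) :
    alt (D.T i) (D.T j) (M i j) = alt (D.T j) (D.T i) (M i j) := by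
  rcases eq_or_ne i j with rfl | hij
  · rfl
  · apply Units.ext
    have key : ∀ (x y : B) (n : ℕ), (alt (D.T x) (D.T y) n : GL B K).1 =
        alt (Tm D.a x) (Tm D.a y) n := by
      intro x y n
      exact map_alt (Units.coeHom (Matrix B B K)) (D.T x) (D.T y) n
    rw [key, key]
    rcases D.lt_or i j hij with h | h
    · exact D.braid_lt h hm
    · have hm' : M j i ≠ 0 := by rwa [M.symmetric]
      rw [M.symmetric i j]
      exact (D.braid_lt h hm').symm

/-- the representation -/
def rho : Art M →* GL B K := lift D.T D.braid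

theorem rho_gen (i : B) : D.rho (gen M i) = D.T i := lift_gen _ _ i

theorem rel_inc {i j : B} (h : D.ord j < D.ord i) (hm : M i j ≠ 0) (h2 : 2 ≤ M i j)
    (x : DA (M i j)) : RelR D.φ D.a i j (D.rho (inc M i j hm x)).1 (rho2 h2 x) := by
  obtain ⟨h3, h4⟩ := D.val h hm
  have e1 : D.rho (inc M i j hm (dg (M i j) false)) = D.T i := by
    rw [inc_dg]
    exact D.rho_gen i
  have e2 : D.rho (inc M i j hm (dg (M i j) true)) = D.T j := by
    rw [inc_dg]
    exact D.rho_gen j
  have r1 : rho2 h2 (dg (M i j) false) = SS (LL (M i j)) := dlift_dg _ _ false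
  have r2 : rho2 h2 (dg (M i j) true) = TT (LL (M i j)) := dlift_dg _ _ true
  have p1 : RelR D.φ D.a i j (D.T i).1 (SS (LL (M i j))) := relR_fst (D.a_self i) (D.a_self j) h3
  have p2 : RelR D.φ D.a i j (D.T j).1 (TT (LL (M i j))) := relR_snd (D.a_self i) (D.a_self j) h4
  have q1 : RelR D.φ D.a i j ((D.T i)⁻¹).1 (SS (LL (M i j)))⁻¹ :=
    relR_fst_inv (D.a_self i) (D.a_self j) h3
  have q2 : RelR D.φ D.a i j ((D.T j)⁻¹).1 (TT (LL (M i j)))⁻¹ :=
    relR_snd_inv (D.a_self i) (D.a_self j) h4
  induction x using da_induction with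
  | h1 =>
    rw [map_one, map_one, map_one]
    exact RelR.one i j
  | h2 x e ih =>
    rw [map_mul, map_mul, map_mul, Units.val_mul]
    refine ih.mul ?_
    cases e
    · rw [e1, r1]
      exact p1
    · rw [e2, r2]
      exact p2
  | h3 x e ih =>
    rw [map_mul, map_mul, map_mul, map_inv, map_inv, map_inv, Units.val_mul]
    refine ih.mul ?_
    cases e
    · rw [e1, r1]
      exact q1
    · rw [e2, r2]
      exact q2

theorem dg1_inc {i j : B} (hm : M i j ≠ 0) (x : DA (M i j)) :
    dg1 M (inc M i j hm x) = dega (M i j) x := by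
  have h : (dg1 M).comp (inc M i j hm) = dega (M i j) := by
    refine da_ext (G := Multiplicative ℤ) (f := (dg1 M).comp (inc M i j hm)) (g := dega (M i j))
      fun e => ?_
    show dg1 M (inc M i j hm (dg (M i j) e)) = _
    rw [inc_dg, dg1_gen]
    exact (dlift_dg (G := Multiplicative ℤ) (fun _ => Multiplicative.ofAdd 1) rfl e).symm
  exact DFunLike.congr_fun h x

theorem inj_lt {i j : B} (h : D.ord j < D.ord i) (hm : 3 ≤ M i j) {g : Art M}
    (hg : g ∈ Subgroup.closure {gen M i, gen M j}) (h6 : D.rho g = 1) (h7 : dg1 M g = 1) :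
    g = 1 := by
  have hij : i ≠ j := by rintro rfl; omega
  have hm0 : M i j ≠ 0 := by omega
  rw [← inc_range M i j hm0] at hg
  obtain ⟨x, rfl⟩ := hg
  have h2 : 2 ≤ M i j := by omega
  have h4 := D.val' hij hm
  have h5 := D.val' hij.symm (by rw [M.symmetric]; exact hm)
  rw [dg1_inc] at h7
  have h8 := D.rel_inc h hm0 h2 x
  rw [h6] at h8
  have h9 := h8.eq_one (D.a_self i) (D.a_self j) h4 h5
  rw [rho2_inj hm h2 h9 h7, map_one]

omit [Fintype B] [DecidableEq B] [IsDomain K] in
include D in
theorem smul_zero_of {k : ℤ} {x : K} (hx : x ≠ 0) (h : k • x = 0) : k = 0 := by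
  have h1 := congrArg D.φ h
  rw [map_zsmul, map_zero, zsmul_eq_mul] at h1
  rcases mul_eq_zero.1 h1 with h2 | h2
  · exact_mod_cast h2
  · exact absurd (D.φinj (h2.trans (map_zero _).symm)) hx

theorem inj_two {i j : B} (hij : i ≠ j) (hm : M i j = 2) {g : Art M}
    (hg : g ∈ Subgroup.closure {gen M i, gen M j}) (h6 : D.rho g = 1) : g = 1 := by
  have hc : Commute (gen M i) (gen M j) := by
    have h1 := gen_rel (M := M) (i := i) (j := j) (by omega)
    rw [hm] at h1
    simp only [alt, mul_one] at h1
    exact h1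
  obtain ⟨k, l, rfl⟩ := mem_closure_pair' hc hg
  rw [map_mul, map_zpow, map_zpow, D.rho_gen, D.rho_gen] at h6
  have h7 := congrArg Units.val h6
  rw [Units.val_mul, T, T, Tu_zpow, Tu_zpow, Units.val_one, mul_add, mul_one, add_mul, one_mul,
    smul_mul_smul_comm, Em_mul (D.val2 hij.symm (by rw [M.symmetric]; exact hm)), smul_zero,
    add_zero, add_assoc] at h7
  have h8 : k • Em D.a i + l • Em D.a j = 0 := by
    have := congrArg (fun X => X - 1) h7
    simpa using this
  obtain ⟨t, ht, ht3⟩ := D.nz i
  obtain ⟨u, hu, hu3⟩ := D.nz j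
  have e1 : k = 0 := by
    have h9 := congrFun (congrFun h8 i) t
    have h10 : k • D.a t i + l • (if i = j then D.a t j else 0) = 0 := by
      have : (if i = i then D.a t i else 0) = D.a t i := if_pos rfl
      rw [← this]
      exact h9
    rw [if_neg hij, smul_zero, add_zero] at h10
    exact D.smul_zero_of (D.val' ht.symm (by rw [M.symmetric]; exact ht3)) h10
  have e2 : l = 0 := by
    have h9 := congrFun (congrFun h8 j) u
    have h10 : k • (if j = i then D.a u i else 0) + l • D.a u j = 0 := by
      have : (if j = j then D.a u j else 0) = D.a u j := if_pos rfl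
      rw [← this]
      exact h9
    rw [if_neg hij.symm, smul_zero, zero_add] at h10
    exact D.smul_zero_of (D.val' hu.symm (by rw [M.symmetric]; exact hu3)) h10
  rw [e1, e2, zpow_zero, zpow_zero, mul_one]

/-- injective on the subgroups generated by two generators -/
theorem inj_pair {i j : B} (hij : i ≠ j) (hm : M i j ≠ 0) {g : Art M}
    (hg : g ∈ Subgroup.closure {gen M i, gen M j}) (h6 : D.rho g = 1) (h7 : dg1 M g = 1) :
    g = 1 := by
  rcases two_or hij hm with h2 | h2
  · exact D.inj_two hij h2 hg h6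
  · rcases D.lt_or i j hij with h | h
    · exact D.inj_lt h h2 hg h6 h7
    · rw [Set.pair_comm] at hg
      exact D.inj_lt h (by rwa [M.symmetric]) hg h6 h7

end Dat2

/-- every generator has a finite label at least three -/
def Nz {B : Type} (M : CoxeterMatrix B) : Prop := ∀ i, ∃ t, i ≠ t ∧ 3 ≤ M i t

theorem hasRep2 {B : Type} [Finite B] (M : CoxeterMatrix B) (hM : Nz M) : HasRep M := by
  classical
  have := Fintype.ofFinite B
  let F : Finset ℕ := (Finset.univ : Finset (B × B)).image fun p => M p.1 p.2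
  have hF : ∀ i j, M i j ∈ F := fun i j => Finset.mem_image.2 ⟨(i, j), Finset.mem_univ _, rfl⟩
  let D : Dat2 (cosRing F) M :=
    { φ := (cosRing F).val.toRingHom
      φinj := Subtype.val_injective
      lam := fun i j => ⟨2 * Real.cos (Real.pi / (M i j : ℕ)), mem_cosRing (hF i j)⟩
      ord := fun i => (Fintype.equivFin B i : ℕ)
      inj := fun i j h => (Fintype.equivFin B).injective (Fin.ext h)
      nz := hM
      hlam := fun i j _ _ => rfl }
  refine ⟨B, inferInstance, inferInstance, F, D.rho, ?_⟩
  intro i j hij hm g hg h1 h2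
  refine D.inj_pair hij hm ?_ h1 h2
  rwa [Pool.Agent.H56.DC.par, Set.image_pair] at hg

end Pool.Agent.H54.AR2
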