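import Pool.Agent.H54.AR2.Main
import Pool.Agent.H54.AR2.Rp

/-!
# Two-dimensional Artin groups: the assembly
-/

set_option autoImplicit false

namespace Pool.Agent.H54.AR2

open Pool.Agent.H98.FJ Pool.Agent.H54.CX Pool.Agent.H54.DD Pool.Agent.H52.PAG Pool.Agent.H56.DC
  Pool.Agent.H71.DA Pool.Agent.H52.T2
open Pool.Agent.H59.DE (TAct FinCell)
open Pool.Agent.H54.AR (HasRep lng stabInj_of lng_inj gl_cosRing rst rst_apply art_mem_of_finite)

variable {C : (G : Type) → [Group G] → Prop}

/-- `1 / M i j + 1 / M j k + 1 / M i k ≤ 1` for three different generators with finite labels: the Artin group is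
two-dimensional -/
def TwoDim {B : Type} (M : CoxeterMatrix B) : Prop :=
  ∀ i j k, i ≠ j → j ≠ k → i ≠ k → M i j ≠ 0 → M j k ≠ 0 → M i k ≠ 0 →
    M j k * M i k + M i j * M i k + M i j * M j k ≤ M i j * M j k * M i k

/-- the geometric realisation: a simply connected typed complex with the cosets as vertices -/
structure Real (B : Type) (M : CoxeterMatrix B) (X : Cpx (DV M)) (μ : Set B → ℕ) : Prop where
  tc : TC2 X DV.ty tp μ
  sc : X.SC
  act : TAct X DV.ty tp (Art M)

theorem mem_of_rep2 (hC : Inherits C) (hE : Extension C) (h2 : Cat2 C)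
    (hGL : ∀ n : ℕ, C (GL (Fin n) ℤ)) (hR : RootedAll) {B : Type} [Finite B] {M : CoxeterMatrix B}
    {X : Cpx (DV M)} {μ : Set B → ℕ} (hX : Real B M X μ) (hfin : FinCell X DV.ty) (h : HasRep M) :
    C (Art M) := by
  obtain ⟨ι, _, _, F, f, hf⟩ := h
  have hQ : C (GL ι (Pool.Agent.H54.AR.cosRing F) × Multiplicative ℤ) :=
    prod_mem hC (gl_cosRing hC hGL F ι) hC.int
  have hb : Bdd (W := DV M) DV.ty tp μ := by
    have hfin : Finite (Set B) := inferInstance
    obtain ⟨K, hK⟩ := (Set.finite_range μ).bddAbove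
    exact ⟨K, fun p _ => hK ⟨_, rfl⟩⟩
  refine tc_main2 hC hE h2 hR hX.tc hb hX.sc hX.act hfin hQ (f.prod (lng M)) (stabInj_of _ ?_ ?_)
  · intro i g hg h1
    exact lng_inj i hg (congrArg Prod.snd h1)
  · intro i j hij hm g hg h1
    exact hf i j hij hm g hg (congrArg Prod.fst h1) (congrArg Prod.snd h1)

theorem twoDim_rst {B : Type} {M : CoxeterMatrix B} (hM : TwoDim M) (S : Finset B) :
    TwoDim (rst M S) := by
  intro i j k hij hjk hik h1 h2 h3
  exact hM i.1 j.1 k.1 (fun e => hij (Subtype.ext e)) (fun e => hjk (Subtype.ext e))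
    (fun e => hik (Subtype.ext e)) h1 h2 h3

theorem two_le {B : Type} (M : CoxeterMatrix B) {i j : B} (hij : i ≠ j) (h : M i j ≠ 0) :
    2 ≤ M i j := by
  have h1 : M i j ≠ 1 := M.off_diagonal i j hij
  have h2 : M.M i j = M i j := rfl
  omega

theorem twoDim_ext {B : Type} {M : CoxeterMatrix B} (hM : TwoDim M) : TwoDim (ext M) := by
  rintro (i | i) (j | j) (k | k) hij hjk hik h1 h2 h3
  · exact hM i j k (fun e => hij (by rw [e])) (fun e => hjk (by rw [e])) (fun e => hik (by rw [e]))
      h1 h2 h3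
  · have h4 := two_le M (i := i) (j := j) (fun e => hij (by rw [e])) h1
    rw [ext_inl, ext_inl_inr, ext_inl_inr]
    have h5 : M.M i j = M i j := rfl
    omega
  · have h4 := two_le M (i := i) (j := k) (fun e => hik (by rw [e])) h3
    rw [ext_inl_inr, ext_inr_inl, ext_inl]
    have h5 : M.M i k = M i k := rfl
    omega
  · rw [ext_inl_inr, ext_inl_inr, ext_inr M (fun e => hjk (by rw [e]))]
    norm_num
  · have h4 := two_le M (i := j) (j := k) (fun e => hjk (by rw [e])) h2
    rw [ext_inr_inl, ext_inr_inl, ext_inl]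
    have h5 : M.M j k = M j k := rfl
    omega
  · rw [ext_inr_inl, ext_inl_inr, ext_inr M (fun e => hik (by rw [e]))]
    norm_num
  · rw [ext_inr_inl, ext_inr_inl, ext_inr M (fun e => hij (by rw [e]))]
    norm_num
  · have e1 : ext M (Sum.inr i) (Sum.inr j) = 4 := ext_inr M (fun e => hij (by rw [e]))
    have e2 : ext M (Sum.inr j) (Sum.inr k) = 4 := ext_inr M (fun e => hjk (by rw [e]))
    have e3 : ext M (Sum.inr i) (Sum.inr k) = 4 := ext_inr M (fun e => hik (by rw [e]))
    rw [e1, e2, e3]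
    norm_num

theorem nz_ext {B : Type} (M : CoxeterMatrix B) : Nz (ext M) := by
  rintro (i | i)
  · exact ⟨Sum.inr 0, by simp, by rw [ext_inl_inr]; norm_num⟩
  · refine ⟨Sum.inr (i + 1), ?_, ?_⟩
    · fin_cases i <;> simp
    · rw [ext_inr M (by fin_cases i <;> decide)]; norm_num

/-- two-dimensional Artin groups, from the geometric realisation -/
theorem two_dim_of (hC : Inherits C) (hE : Extension C) (h2 : Cat2 C)
    (hGL : ∀ n : ℕ, C (GL (Fin n) ℤ)) (hR : RootedAll)
    (hreal : ∀ (B : Type) [Finite B] (M : CoxeterMatrix B), TwoDim M → Deg M →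
      ∃ (X : Cpx (DV M)) (μ : Set B → ℕ), Real B M X μ ∧ FinCell X DV.ty)
    (B : Type) (M : CoxeterMatrix B) (hM : TwoDim M) : C (Art M) := by
  refine art_mem_of_finite hC M fun S => ?_
  have hS := twoDim_ext (twoDim_rst hM S)
  refine hC.of_injective (extIn (rst M S)) (extIn_injective (rst M S)) ?_
  obtain ⟨X, μ, hX, hfin⟩ := hreal _ (ext (rst M S)) hS deg_ext
  exact mem_of_rep2 hC hE h2 hGL hR hX hfin (hasRep2 _ (nz_ext _))

end Pool.Agent.H54.AR2
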