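import Pool.Agent.H52.T2.Defs

/-!
# Galleries at a point
-/

set_option autoImplicit false

namespace Pool.Agent.H54.AR2

open Pool.Agent.H54.CX Pool.Agent.H52.T2

variable {W U T : Type} {X : Cpx W} {kd : W → ℕ} {p : W}

theorem gy_pos {n : ℕ} {f e g g' : W} (h : Gy X kd p n f e g g') : 1 ≤ n := by
  cases h <;> omega

theorem gy_fst {n : ℕ} {f e g g' : W} (h : Gy X kd p n f e g g') : T3 X kd g f p := by
  induction h with
  | one e g g' h1 h2 h3 => exact h1
  | step n f e g g' e' g'' h h1 h2 h3 h4 ih => exact ih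

theorem gy_lst {n : ℕ} {f e g g' : W} (h : Gy X kd p n f e g g') : T3 X kd g' e p := by
  cases h with
  | one _ _ _ h1 h2 h3 => exact h2
  | step n _ _ _ _ _ _ h h1 h2 h3 h4 => exact h3

/-- a gallery as a pair of sequences -/
structure Sq (X : Cpx W) (kd : W → ℕ) (p : W) (n : ℕ) (c h : ℕ → W) : Prop where
  l : ∀ i, i < n → T3 X kd (c i) (h i) p
  r : ∀ i, i < n → T3 X kd (c (i + 1)) (h i) p
  c : ∀ i, i < n → c i ≠ c (i + 1)
  h : ∀ i, i + 1 < n → h (i + 1) ≠ h i

theorem gy_of_sq {n : ℕ} {c h : ℕ → W} (hs : Sq X kd p (n + 1) c h) :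
    Gy X kd p (n + 1) (h 0) (h n) (c 0) (c (n + 1)) := by
  induction n with
  | zero => exact Gy.one _ _ _ (hs.l 0 (by omega)) (hs.r 0 (by omega)) (hs.c 0 (by omega))
  | succ n ih =>
    refine Gy.step _ _ _ _ _ _ _ (ih ⟨fun i hi => hs.l i (by omega), fun i hi => hs.r i (by omega),
      fun i hi => hs.c i (by omega), fun i hi => hs.h i (by omega)⟩) (hs.h n (by omega))
      (hs.l _ (by omega)) (hs.r _ (by omega)) (hs.c _ (by omega))

theorem sq_of_gy {n : ℕ} {f e g g' : W} (hg : Gy X kd p n f e g g') :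
    ∃ c h : ℕ → W, Sq X kd p n c h ∧ c 0 = g ∧ c n = g' ∧ h 0 = f ∧ h (n - 1) = e := by
  induction hg with
  | one e g g' h1 h2 h3 =>
    refine ⟨fun i => if i = 0 then g else g', fun _ => e, ⟨?_, ?_, ?_, ?_⟩, rfl, rfl, rfl, rfl⟩
    · intro i hi
      have : i = 0 := by omega
      subst this
      exact h1
    · intro i hi
      have : i = 0 := by omega
      subst this
      exact h2
    · intro i hi
      have : i = 0 := by omega
      subst this
      exact h3
    · intro i hi
      omega
  | step n f e g g' e' g'' hg h1 h2 h3 h4 ih =>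
    obtain ⟨c, h, hs, a1, a2, a3, a4⟩ := ih
    have hn := gy_pos hg
    refine ⟨fun i => if i ≤ n then c i else g'', fun i => if i < n then h i else e',
      ⟨?_, ?_, ?_, ?_⟩, ?_, ?_, ?_, ?_⟩
    · intro i hi
      by_cases h5 : i < n
      · simp only [if_pos h5, if_pos h5.le]
        exact hs.l i h5
      · have h6 : i = n := by omega
        subst h6
        simp only [le_refl, if_true, lt_irrefl, if_false]
        rw [a2]
        exact h2
    · intro i hi
      by_cases h5 : i < n
      · simp only [if_pos h5, if_pos (show i + 1 ≤ n by omega)]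
        exact hs.r i h5
      · have h6 : i = n := by omega
        subst h6
        simp only [lt_irrefl, if_false, if_neg (show ¬ i + 1 ≤ i by omega)]
        exact h3
    · intro i hi
      by_cases h5 : i < n
      · simp only [if_pos h5.le, if_pos (show i + 1 ≤ n by omega)]
        exact hs.c i h5
      · have h6 : i = n := by omega
        subst h6
        simp only [le_refl, if_true, if_neg (show ¬ i + 1 ≤ i by omega)]
        rw [a2]
        exact h4
    · intro i hi
      by_cases h5 : i + 1 < n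
      · simp only [if_pos h5, if_pos (show i < n by omega)]
        exact hs.h i h5
      · have h6 : i = n - 1 := by omega
        subst h6
        simp only [if_neg h5, if_pos (show n - 1 < n by omega)]
        rw [a4]
        exact h1
    · simp only [Nat.zero_le, if_true]
      exact a1
    · simp only [if_neg (show ¬ n + 1 ≤ n by omega)]
    · simp only [if_pos (show 0 < n by omega)]
      exact a3
    · simp only [Nat.add_sub_cancel, lt_irrefl, if_false]

/-- galleries are mapped to galleries -/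
theorem gy_map {Y : Cpx U} {kd' : U → ℕ} {p' : U} (φ : W → U)
    (h1 : ∀ g e, T3 X kd g e p → T3 Y kd' (φ g) (φ e) p')
    (h2 : ∀ g g' e, T3 X kd g e p → T3 X kd g' e p → φ g = φ g' → g = g')
    (h3 : ∀ g e e', T3 X kd g e p → T3 X kd g e' p → φ e = φ e' → e = e') {n : ℕ} {f e g g' : W}
    (h : Gy X kd p n f e g g') : Gy Y kd' p' n (φ f) (φ e) (φ g) (φ g') := by
  induction h with
  | one e g g' a1 a2 a3 => exact Gy.one _ _ _ (h1 _ _ a1) (h1 _ _ a2) fun h => a3 (h2 _ _ _ a1 a2 h)
  | step n f e g g' e' g'' h a1 a2 a3 a4 ih =>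
    exact Gy.step _ _ _ _ _ _ _ ih (fun h5 => a1 (h3 _ _ _ a2 (gy_lst h) h5)) (h1 _ _ a2)
      (h1 _ _ a3) fun h5 => a4 (h2 _ _ _ a2 a3 h5)

section tc

variable {τ : W → T} {μ : T → ℕ}

/-- closed galleries have at least `2 m` hyperedges -/
theorem gir' (hT : TC2 X kd τ μ) : ∀ (n : ℕ) (f e g : W), Gy X kd p n f e g g → 2 * μ (τ p) ≤ n := by
  intro n
  induction n using Nat.strong_induction_on with
  | _ n ih =>
  intro f e g hg
  by_cases hfe : f = e
  swap
  · exact hT.gir p n f e g hg hfe
  obtain ⟨c, h, hs, a1, a2, a3, a4⟩ := sq_of_gy hg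
  have hn := gy_pos hg
  rcases Nat.lt_or_ge n 3 with h3 | h3
  · exfalso
    rcases (by omega : n = 1 ∨ n = 2) with rfl | rfl
    · exact hs.c 0 (by omega) (by rw [a1, a2])
    · exact hs.h 0 (by omega) (by rw [a3, hfe]; exact a4)
  obtain ⟨m, rfl⟩ : ∃ m, n = m + 3 := ⟨n - 3, by omega⟩
  have a4' : h (m + 2) = e := a4
  have hin : Gy X kd p (m + 1) (h 1) (h (m + 1)) (c 1) (c (m + 2)) :=
    gy_of_sq (c := fun i => c (i + 1)) (h := fun i => h (i + 1))
      ⟨fun i hi => hs.l _ (by omega), fun i hi => hs.r _ (by omega), fun i hi => hs.c _ (by omega),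
        fun i hi => hs.h _ (by omega)⟩
  by_cases hc : c 1 = c (m + 2)
  · rw [← hc] at hin
    have := ih _ (by omega) _ _ _ hin
    omega
  · have h5 : h (m + 2) = h 0 := by rw [a4', a3, hfe]
    have hcl : Gy X kd p (m + 2) (h 1) (h 0) (c 1) (c 1) := by
      refine Gy.step _ _ _ _ _ _ _ hin ?_ ?_ (hs.r 0 (by omega)) (Ne.symm hc)
      · rw [← h5]; exact hs.h (m + 1) (by omega)
      · rw [← h5]; exact hs.l (m + 2) (by omega)
    have := hT.gir p _ _ _ _ hcl (hs.h 0 (by omega))
    omega

end tc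

end Pool.Agent.H54.AR2
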