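import Pool.Agent.H54.AR2.Tq
import Pool.Agent.H54.AR2.Gal

/-!
# Typed complexes with labels satisfy the link condition

The angles are `π / 2 - π / (2 m)` at the chambers, `π / 2` at the hyperedges and `π / (2 m)` at the points. The kinds of the
vertices of a closed path in a link alternate. At a point of label `m` closed paths have at least `4 m` vertices (galleries). At a
chamber the length four is excluded, the sum is at least `2 π` for length six by `k3` and for length at least eight as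
all angles are at least `π / 4`.
-/

set_option autoImplicit false

namespace Pool.Agent.H54.AR2

open Pool.Agent.H54.CX Pool.Agent.H52.T2

variable {W T : Type} {X : Cpx W} {kd : W → ℕ} {τ : W → T} {μ : T → ℕ}

private theorem edges (h : TC2 X kd τ μ) {a b c : W} (ht : X.Tri a b c) :
    kd a ≠ kd b ∧ kd b ≠ kd c ∧ kd a ≠ kd c ∧
      X.len a b = L2 (kd a) (kd b) (μ (τ a)) (μ (τ b)) ∧
      X.len b c = L2 (kd b) (kd c) (μ (τ b)) (μ (τ c)) ∧
      X.len a c = L2 (kd a) (kd c) (μ (τ a)) (μ (τ c)) := by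
  have h1 := X.edge _ _ _ ht
  have h2 := X.edge _ _ _ (X.rot _ _ _ ht)
  have h3 := X.symm _ _ (X.edge _ _ _ (X.rot _ _ _ (X.rot _ _ _ ht)))
  exact ⟨h.kd_ne _ _ h1, h.kd_ne _ _ h2, h.kd_ne _ _ h3, h.len _ _ h1, h.len _ _ h2, h.len _ _ h3⟩

private theorem inv_Ls {m : ℕ} (h : 2 ≤ m) : 1 / Ls m = Real.sin (th m) := by
  rw [Ls_eq]
  have := (sin_th_pos h).ne'
  field_simp

private theorem Lc_div {m : ℕ} (h : 2 ≤ m) : Lc m / Ls m = Real.cos (th m) := by
  rw [Ls_eq, Lc_eq]
  have := (sin_th_pos h).ne'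
  field_simp

private theorem key0 {m : ℕ} (h : 2 ≤ m) : (1 ^ 2 + Ls m ^ 2 - Lc m ^ 2) / (2 * 1 * Ls m) =
    Real.cos (Real.pi / 2 - th m) := by
  rw [Real.cos_pi_div_two_sub, ← inv_Ls h, Ls_sq h]
  have := (Ls_pos h).ne'
  field_simp
  ring

private theorem key2 {m : ℕ} (h : 2 ≤ m) : (Ls m ^ 2 + Lc m ^ 2 - 1 ^ 2) / (2 * Ls m * Lc m) =
    Real.cos (th m) := by
  rw [← Lc_div h, Ls_sq h]
  have := (Ls_pos h).ne'
  have := (Lc_pos h).ne'
  field_simp
  ring

private theorem arc0 {m : ℕ} (h : 2 ≤ m) : Real.arccos (Real.cos (Real.pi / 2 - th m)) =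
    Real.pi / 2 - th m := by
  have h1 := th_pos h
  have h2 := th_le h
  have := Real.pi_pos
  exact Real.arccos_cos (by linarith) (by linarith)

private theorem arc2 {m : ℕ} (h : 2 ≤ m) : Real.arccos (Real.cos (th m)) = th m := by
  have h1 := th_pos h
  have h2 := th_le h
  have := Real.pi_pos
  exact Real.arccos_cos (by linarith) (by linarith)

/-- the angle at a chamber -/
theorem ang0 (h : TC2 X kd τ μ) {a b c : W} (ht : X.Tri a b c) (ha : kd a = 0) (hb : kd b = 1)
    (hc : kd c = 2) : X.ang a b c = Real.pi / 2 - th (μ (τ c)) := by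
  obtain ⟨-, -, -, l1, l2, l3⟩ := edges h ht
  have hm := h.mu c hc
  rw [ha, hb] at l1
  rw [hb, hc] at l2
  rw [ha, hc] at l3
  rw [← arc0 hm, ← key0 hm]
  unfold Cpx.ang
  rw [l1, l2, l3]
  rfl

theorem ang0' (h : TC2 X kd τ μ) {a b c : W} (ht : X.Tri a b c) (ha : kd a = 0) (hb : kd b = 2)
    (hc : kd c = 1) : X.ang a b c = Real.pi / 2 - th (μ (τ b)) := by
  obtain ⟨-, -, -, l1, l2, l3⟩ := edges h ht
  have hm := h.mu b hb
  rw [ha, hb] at l1
  rw [hb, hc] at l2
  rw [ha, hc] at l3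
  rw [← arc0 hm, ← key0 hm]
  unfold Cpx.ang
  rw [l1, l2, l3]
  simp only [L2]
  congr 1
  ring_nf

/-- the angle at a hyperedge -/
theorem ang1 (h : TC2 X kd τ μ) {a b c : W} (ht : X.Tri a b c) (ha : kd a = 1) :
    X.ang a b c = Real.pi / 2 := by
  obtain ⟨n1, n2, n3, l1, l2, l3⟩ := edges h ht
  have hb := h.kd_le b
  have hc := h.kd_le c
  have key : (X.len a b ^ 2 + X.len a c ^ 2 - X.len b c ^ 2) / (2 * X.len a b * X.len a c) = 0 := by
    rw [ha] at n1 n3 l1 l3
    have hbc : (kd b = 0 ∧ kd c = 2) ∨ (kd b = 2 ∧ kd c = 0) := by omega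
    rcases hbc with ⟨e1, e2⟩ | ⟨e1, e2⟩
    · have hm := Ls_sq (h.mu c e2)
      rw [l1, l2, l3, e1, e2]
      simp only [L2]
      rw [hm]
      ring_nf
    · have hm := Ls_sq (h.mu b e1)
      rw [l1, l2, l3, e1, e2]
      simp only [L2]
      rw [hm]
      ring_nf
  unfold Cpx.ang
  rw [key, Real.arccos_zero]

/-- the angle at a point -/
theorem ang2 (h : TC2 X kd τ μ) {a b c : W} (ht : X.Tri a b c) (ha : kd a = 2) :
    X.ang a b c = th (μ (τ a)) := by
  obtain ⟨n1, n2, n3, l1, l2, l3⟩ := edges h ht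
  have hb := h.kd_le b
  have hc := h.kd_le c
  have hm := h.mu a ha
  rw [ha] at n1 n3 l1 l3
  rw [← arc2 hm, ← key2 hm]
  unfold Cpx.ang
  have hbc : (kd b = 0 ∧ kd c = 1) ∨ (kd b = 1 ∧ kd c = 0) := by omega
  rcases hbc with ⟨e1, e2⟩ | ⟨e1, e2⟩
  · rw [l1, l2, l3, e1, e2]
    rfl
  · rw [l1, l2, l3, e1, e2]
    simp only [L2]
    congr 1
    ring_nf

private theorem kinds (h : TC2 X kd τ μ) {a : W} {n : ℕ} {b : ℕ → W}
    (ht : ∀ i, i < n → X.Tri a (b i) (b (i + 1))) (hn : 0 < n) :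
    ∀ i, i ≤ n → (Even i → kd (b i) = kd (b 0)) ∧ (Odd i → kd (b i) ≠ kd (b 0)) ∧
      kd (b i) ≠ kd a := by
  intro i
  induction i with
  | zero =>
    intro _
    obtain ⟨n1, _⟩ := edges h (ht 0 hn)
    exact ⟨fun _ => rfl, fun h1 => absurd h1 (by decide), n1.symm⟩
  | succ i ih =>
    intro hi
    obtain ⟨h1, h2, h3⟩ := ih (by omega)
    obtain ⟨n1, n2, n3, _⟩ := edges h (ht i (by omega))
    have a1 := h.kd_le a
    have a2 := h.kd_le (b i)
    have a3 := h.kd_le (b (i + 1))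
    have a4 := h.kd_le (b 0)
    have h0 := (edges h (ht 0 hn)).1
    refine ⟨fun he => ?_, fun ho => ?_, n3.symm⟩
    · have h4 : Odd i := by
        rcases Nat.even_or_odd i with h5 | h5
        · exact absurd he (by rw [Nat.even_add_one]; exact fun h6 => h6 h5)
        · exact h5
      have h5 := h2 h4
      omega
    · have h4 : Even i := by
        rcases Nat.even_or_odd i with h5 | h5
        · exact h5
        · exact absurd ho (by rw [Nat.not_odd_iff_even]; exact h5.add_one)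
      have h5 := h1 h4
      omega

/-- the length of a closed path is even -/
private theorem even_len (h : TC2 X kd τ μ) {a : W} {n : ℕ} {b : ℕ → W} (hn : 3 ≤ n)
    (hb : b n = b 0) (ht : ∀ i, i < n → X.Tri a (b i) (b (i + 1))) : Even n := by
  have h1 := kinds h ht (by omega) n le_rfl
  rcases Nat.even_or_odd n with h2 | h2
  · exact h2
  · exact absurd (by rw [hb]) (h1.2.1 h2)

private theorem tri3 {p g e : W} (h1 : X.Tri p g e) : X.Tri g e p := X.rot _ _ _ h1

private theorem tri3' {p g e : W} (h1 : X.Tri p e g) : X.Tri g e p :=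
  X.rot _ _ _ (X.rot _ _ _ (X.swap _ _ _ h1))

private theorem tri4 {g p e : W} (h1 : X.Tri g p e) : X.Tri g e p :=
  X.rot _ _ _ (X.swap _ _ _ h1)

private theorem nx {n i : ℕ} (hn : 0 < n) :
    ((i + 1) % n = i % n + 1 ∧ i % n + 1 < n) ∨ ((i + 1) % n = 0 ∧ i % n + 1 = n) := by
  have h2 := Nat.mod_lt i hn
  rcases Nat.lt_or_ge (i % n + 1) n with h3 | h3
  · left
    refine ⟨?_, h3⟩
    rw [Nat.add_mod, Nat.mod_eq_of_lt (show 1 < n by omega), Nat.mod_eq_of_lt h3]
  · right
    have h4 : i % n + 1 = n := by omega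
    refine ⟨?_, h4⟩
    rw [← Nat.mod_add_mod, h4, Nat.mod_self]

/-- closed paths at a point -/
private theorem at_point (h : TC2 X kd τ μ) {a : W} {n : ℕ} {b : ℕ → W} (ha : kd a = 2) (hn : 3 ≤ n)
    (hb : b n = b 0) (hi : ∀ i j, i < j → j < n → b i ≠ b j)
    (ht : ∀ i, i < n → X.Tri a (b i) (b (i + 1))) : 4 * μ (τ a) ≤ n := by
  obtain ⟨k, hk⟩ := even_len h hn hb ht
  have hkd := kinds h ht (by omega)
  have hin : ∀ i j, i < n → j < n → b i = b j → i = j := by
    intro i j h1 h2 h3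
    rcases Nat.lt_trichotomy i j with h4 | h4 | h4
    · exact absurd h3 (hi _ _ h4 h2)
    · exact h4
    · exact absurd h3.symm (hi _ _ h4 h1)
  -- the periodic path
  have hT : ∀ i, X.Tri a (b (i % n)) (b ((i + 1) % n)) := by
    intro i
    rcases nx (n := n) (i := i) (by omega) with ⟨h1, h2⟩ | ⟨h1, h2⟩
    · rw [h1]
      exact ht _ (by omega)
    · rw [h1, ← hb]
      have := ht (i % n) (by omega)
      rwa [h2] at this
  have hN : ∀ i, b (i % n) ≠ b ((i + 2) % n) := by
    intro i h1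
    have h2 := hin _ _ (Nat.mod_lt _ (by omega)) (Nat.mod_lt _ (by omega)) h1
    have h3 : (i + 2) % n = ((i + 1) + 1) % n := rfl
    rw [h3] at h2
    rcases nx (n := n) (i := i) (by omega) with ⟨h1, h2⟩ | ⟨h1, h2⟩ <;>
      rcases nx (n := n) (i := i + 1) (by omega) with ⟨h4, h5⟩ | ⟨h4, h5⟩ <;> omega
  have hpar : ∀ i, (Even i → kd (b (i % n)) = kd (b 0)) ∧ (Odd i → kd (b (i % n)) ≠ kd (b 0)) ∧
      kd (b (i % n)) ≠ kd a := by
    intro i
    have h1 : i % n % 2 = i % 2 := by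
      rw [hk, ← two_mul, Nat.mod_mul_right_mod]
    have h2 := hkd (i % n) (Nat.mod_lt _ (by omega)).le
    refine ⟨fun h3 => h2.1 ?_, fun h3 => h2.2.1 ?_, h2.2.2⟩
    · rw [Nat.even_iff] at h3 ⊢; omega
    · rw [Nat.odd_iff] at h3 ⊢; omega
  have hk0 := h.kd_le (b 0)
  obtain ⟨s, hs, hs'⟩ : ∃ s, (∀ i, kd (b ((2 * i + s) % n)) = 0) ∧
      ∀ i, kd (b ((2 * i + 1 + s) % n)) = 1 := by
    have h0 := (hkd 0 (by omega)).2.2
    by_cases h1 : kd (b 0) = 0
    · refine ⟨0, fun i => ?_, fun i => ?_⟩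
      · rw [(hpar _).1 (by rw [Nat.even_iff]; omega), h1]
      · have h2 := (hpar (2 * i + 1 + 0)).2.1 (by rw [Nat.odd_iff]; omega)
        have h3 := (hpar (2 * i + 1 + 0)).2.2
        have h4 := h.kd_le (b ((2 * i + 1 + 0) % n))
        omega
    · refine ⟨1, fun i => ?_, fun i => ?_⟩
      · have h2 := (hpar (2 * i + 1)).2.1 (by rw [Nat.odd_iff]; omega)
        have h3 := (hpar (2 * i + 1)).2.2
        have h4 := h.kd_le (b ((2 * i + 1) % n))
        omega
      · rw [(hpar _).1 (by rw [Nat.even_iff]; omega)]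
        omega
  obtain ⟨k, rfl⟩ : ∃ k', k = k' + 1 := ⟨k - 1, by omega⟩
  have hS : Sq X kd a (k + 1) (fun i => b ((2 * i + s) % n)) (fun i => b ((2 * i + 1 + s) % n)) := by
    refine ⟨fun i _ => ⟨hs i, hs' i, ha, ?_⟩, fun i _ => ⟨hs _, hs' i, ha, ?_⟩, fun i _ => ?_,
      fun i _ => ?_⟩
    · have := hT (2 * i + s)
      rw [show 2 * i + s + 1 = 2 * i + 1 + s by omega] at this
      exact tri3 this
    · have := hT (2 * i + 1 + s)
      rw [show 2 * i + 1 + s + 1 = 2 * (i + 1) + s by omega] at this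
      exact tri3' this
    · have := hN (2 * i + s)
      rwa [show 2 * i + s + 2 = 2 * (i + 1) + s by omega] at this
    · have := hN (2 * i + 1 + s)
      rw [show 2 * i + 1 + s + 2 = 2 * (i + 1) + 1 + s by omega] at this
      exact this.symm
  have hG := gy_of_sq hS
  have he : b ((2 * (k + 1) + s) % n) = b ((2 * 0 + s) % n) := by
    have : 2 * (k + 1) + s = (2 * 0 + s) + n := by omega
    rw [this, Nat.add_mod_right]
  simp only [he] at hG
  have := gir' h _ _ _ _ hG
  omega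

/-- typed complexes with labels satisfy the link condition -/
theorem tc_link2 (h : TC2 X kd τ μ) : X.Link := by
  intro a n b hn hb hi ht
  have hpi := Real.pi_pos
  have hk := h.kd_le a
  have hkd := kinds h ht (by omega)
  have hev := even_len h hn hb ht
  have h4 : 4 ≤ n := by
    obtain ⟨r, hr⟩ := hev
    omega
  have key : ∀ c : ℝ, (∀ i, i < n → X.ang a (b i) (b (i + 1)) = c) →
      ∑ i ∈ Finset.range n, X.ang a (b i) (b (i + 1)) = n * c := by
    intro c hc
    rw [Finset.sum_congr rfl (fun i hi => hc i (Finset.mem_range.1 hi)), Finset.sum_const,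
      Finset.card_range, nsmul_eq_mul]
  have hcase : kd a = 0 ∨ kd a = 1 ∨ kd a = 2 := by omega
  rcases hcase with ha | ha | ha
  · -- a chamber
    have hge : ∀ i, i < n → Real.pi / 4 ≤ X.ang a (b i) (b (i + 1)) := by
      intro i hi'
      obtain ⟨n1, n2, n3, -⟩ := edges h (ht i hi')
      have k1 := h.kd_le (b i)
      have k2 := h.kd_le (b (i + 1))
      rcases (by omega : (kd (b i) = 1 ∧ kd (b (i + 1)) = 2) ∨ (kd (b i) = 2 ∧ kd (b (i + 1)) = 1))
        with ⟨e1, e2⟩ | ⟨e1, e2⟩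
      · rw [ang0 h (ht i hi') ha e1 e2]
        linarith [th_le (h.mu _ e2)]
      · rw [ang0' h (ht i hi') ha e1 e2]
        linarith [th_le (h.mu _ e1)]
    rcases Nat.lt_or_ge n 8 with h8 | h8
    swap
    · have h1 : ∑ _i ∈ Finset.range n, Real.pi / 4 ≤
          ∑ i ∈ Finset.range n, X.ang a (b i) (b (i + 1)) :=
        Finset.sum_le_sum fun i hi => hge i (Finset.mem_range.1 hi)
      rw [Finset.sum_const, Finset.card_range, nsmul_eq_mul] at h1
      have h2 : (8 : ℝ) ≤ n := by exact_mod_cast h8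
      nlinarith
    have hn' : n = 4 ∨ n = 6 := by
      obtain ⟨r, hr⟩ := hev
      omega
    have k0 := h.kd_le (b 0)
    have h0 := (hkd 0 (by omega)).2.2
    have kev : ∀ i, i ≤ n → Even i → kd (b i) = kd (b 0) := fun i h1 h2 => (hkd i h1).1 h2
    have kod : ∀ i, i ≤ n → Odd i → kd (b i) = 3 - kd (b 0) := by
      intro i h1 h2
      have h3 := (hkd i h1).2.1 h2
      have h4 := (hkd i h1).2.2
      have h5 := h.kd_le (b i)
      omega
    rw [ha] at h0
    have h01 : kd (b 0) = 1 ∨ kd (b 0) = 2 := by omega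
    rcases hn' with rfl | rfl
    · exfalso
      have e : b 4 = b 0 := hb
      have t3 := ht 3 (by omega)
      rw [e] at t3
      rcases h01 with h1 | h1
      · exact hi 1 3 (by omega) (by omega) (h.lg a (b 0) (b 2) (b 1) (b 3) ha h1
          (by rw [kev 2 (by omega) (by decide), h1]) (by rw [kod 1 (by omega) (by decide), h1])
          (by rw [kod 3 (by omega) (by decide), h1]) (hi 0 2 (by omega) (by omega))
          (ht 0 (by omega)) (tri4 (ht 1 (by omega))) (tri4 t3) (ht 2 (by omega)))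
      · exact hi 0 2 (by omega) (by omega) (h.lg a (b 1) (b 3) (b 0) (b 2) ha
          (by rw [kod 1 (by omega) (by decide), h1]) (by rw [kod 3 (by omega) (by decide), h1])
          h1 (by rw [kev 2 (by omega) (by decide), h1]) (hi 1 3 (by omega) (by omega))
          (tri4 (ht 0 (by omega))) t3 (ht 1 (by omega)) (tri4 (ht 2 (by omega))))
    · have e : b 6 = b 0 := hb
      have t0 := ht 0 (by omega)
      have t1 := ht 1 (by omega)
      have t2 := ht 2 (by omega)
      have t3 := ht 3 (by omega)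
      have t4 := ht 4 (by omega)
      have t5 := ht 5 (by omega)
      have e2 := kev 2 (by omega) (by decide)
      have e4 := kev 4 (by omega) (by decide)
      have e1 := kod 1 (by omega) (by decide)
      have e3 := kod 3 (by omega) (by decide)
      have e5 := kod 5 (by omega) (by decide)
      simp only [Finset.sum_range_succ, Finset.sum_range_zero, zero_add, Nat.reduceAdd] at *
      rw [e] at t5 ⊢
      have hth : ∀ m : ℕ, th m = Real.pi / 2 * (1 / m) := by
        intro m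
        unfold th
        rcases Nat.eq_zero_or_pos m with h9 | h9
        · subst h9; simp
        · have : (m : ℝ) ≠ 0 := by exact_mod_cast h9.ne'
          field_simp
      rcases h01 with h1 | h1
      · rw [h1] at e1 e2 e3 e4 e5
        simp only [Nat.reduceSub] at e1 e3 e5
        rw [ang0 h t0 ha h1 e1, ang0' h t1 ha e1 e2, ang0 h t2 ha e2 e3, ang0' h t3 ha e3 e4,
          ang0 h t4 ha e4 e5, ang0' h t5 ha e5 h1]
        have := h.k3 a (b 0) (b 2) (b 4) (b 1) (b 3) (b 5) ⟨ha, h1, e1, t0⟩ ⟨ha, e2, e1, tri4 t1⟩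
          ⟨ha, e2, e3, t2⟩ ⟨ha, e4, e3, tri4 t3⟩ ⟨ha, e4, e5, t4⟩ ⟨ha, h1, e5, tri4 t5⟩
          (hi 0 2 (by omega) (by omega)) (hi 2 4 (by omega) (by omega))
          (hi 0 4 (by omega) (by omega)).symm
        simp only [hth]
        nlinarith
      · rw [h1] at e1 e2 e3 e4 e5
        simp only [Nat.reduceSub] at e1 e3 e5
        rw [ang0' h t0 ha h1 e1, ang0 h t1 ha e1 e2, ang0' h t2 ha e2 e3, ang0 h t3 ha e3 e4,
          ang0' h t4 ha e4 e5, ang0 h t5 ha e5 h1]
        have := h.k3 a (b 1) (b 3) (b 5) (b 2) (b 4) (b 0) ⟨ha, e1, e2, t1⟩ ⟨ha, e3, e2, tri4 t2⟩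
          ⟨ha, e3, e4, t3⟩ ⟨ha, e5, e4, tri4 t4⟩ ⟨ha, e5, h1, t5⟩ ⟨ha, e1, h1, tri4 t0⟩
          (hi 1 3 (by omega) (by omega)) (hi 3 5 (by omega) (by omega))
          (hi 1 5 (by omega) (by omega)).symm
        simp only [hth]
        nlinarith
  · rw [key _ fun i hi' => ang1 h (ht i hi') ha]
    have h1 : (4 : ℝ) ≤ n := by exact_mod_cast h4
    nlinarith
  · rw [key _ fun i hi' => ang2 h (ht i hi') ha]
    have h1 : (4 : ℝ) * μ (τ a) ≤ n := by exact_mod_cast at_point h ha hn hb hi ht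
    have h2 : (2 : ℝ) ≤ μ (τ a) := by exact_mod_cast h.mu a ha
    unfold th
    rw [← mul_div_assoc, le_div_iff₀ (by positivity)]
    nlinarith

end Pool.Agent.H54.AR2
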