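import Pool.Agent.H54.AR2.TqSC
import Pool.Agent.H52.FR.Lif

/-!
# Fixed hyperedges of the quotient of a typed complex with labels
-/

set_option autoImplicit false

namespace Pool.Agent.H54.AR2

open Pool.Agent.H54.CX Pool.Agent.H52.T2 Pool.Agent.H59.DE
open Pool.Agent.H52.FR (IsQuo FXq fx_iff)

section gen

variable {W U T : Type} {X : Cpx W} {kd : W → ℕ} {τ : W → T} {μ : T → ℕ} {Y : Cpx U} {kd' : U → ℕ}
  {τ' : U → T} {q : W → U} {N : Type} [Group N] [MulAction N W]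

private theorem flip {V : Type} {Z : Cpx V} {a b c : V} (h : Z.Tri a b c) : Z.Tri c b a :=
  Z.rot _ _ _ (Z.rot _ _ _ (Z.swap _ _ _ h))

private theorem rot2 {V : Type} {Z : Cpx V} {a b c : V} (h : Z.Tri a b c) : Z.Tri c a b :=
  Z.rot _ _ _ (Z.rot _ _ _ h)

private theorem ed2 {V : Type} {Z : Cpx V} {a b c : V} (h : Z.Tri a b c) : Z.Edge a c :=
  Z.symm _ _ (Z.edge _ _ _ (rot2 h))

theorem kd_smul2 (hT : TC2 X kd τ μ) (ha : TAct X kd τ N) (n : N) (x : W) : kd (n • x) = kd x :=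
  hT.kd_τ _ _ (ha.type n x)

theorem fix_cell2 (hT : TC2 X kd τ μ) (ha : TAct X kd τ N) {c x : W} {n : N} (hc : kd c = 0)
    (h1 : X.Edge c x) (h2 : X.Edge c (n • x)) : n • x = x :=
  hT.inj c (n • x) x hc h2 h1 (ha.type n x)

theorem fix_hyp2 (hT : TC2 X kd τ μ) (ha : TAct X kd τ N) {e p : W} {n : N} (he : kd e = 1)
    (hp : kd p = 2) (h1 : X.Edge e p) (h2 : X.Edge e (n • p)) : n • p = p := by
  obtain ⟨g, hg, hge⟩ := hT.cell e p he hp h1
  have hnp : kd (n • p) = 2 := (kd_smul2 hT ha n p).trans hp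
  exact fix_cell2 hT ha hg (ed2 (hT.fill g e p hg he hp hge h1))
    (ed2 (hT.fill g e (n • p) hg he hnp hge h2))

theorem q_smul2 (hq : IsQuo X kd τ Y kd' τ' q N) (n : N) (x : W) : q (n • x) = q x :=
  ((hq.orb x (n • x)).2 ⟨n, rfl⟩).symm

theorem lift_tri2 (hT : TC2 X kd τ μ) (ha : TAct X kd τ N) (hq : IsQuo X kd τ Y kd' τ' q N) {x y : W}
    {c : U} (hxy : X.Edge x y) (h : Y.Tri (q x) (q y) c) : ∃ z, q z = c ∧ X.Tri x y z := by
  obtain ⟨x', y', z', h1, h2, h3, h4⟩ := (hq.tri _ _ _).1 h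
  obtain ⟨n, hn⟩ := (hq.orb x' x).1 h2
  have t1 := ha.inv.tri n x' y' z' h1
  rw [hn] at t1
  have h5 : q (n • y') = q y := (q_smul2 hq n y').trans h3
  have h6 : q (n • z') = c := (q_smul2 hq n z').trans h4
  obtain ⟨m, hm⟩ := (hq.orb _ _).1 h5
  have e1 : X.Edge x (n • y') := X.edge _ _ _ t1
  have k1 : kd (n • y') = kd y := by rw [← hm, kd_smul2 hT ha m]
  suffices hk : ∃ k : N, k • x = x ∧ k • (n • y') = y by
    obtain ⟨k, k1, k2⟩ := hk
    refine ⟨k • (n • z'), (q_smul2 hq k _).trans h6, ?_⟩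
    have := ha.inv.tri k _ _ _ t1
    rwa [k1, k2] at this
  have hyx : X.Edge y x := X.symm _ _ hxy
  have e2 : X.Edge y (m • x) := by
    have := ha.inv.edge m _ _ (X.symm _ _ e1)
    rwa [hm] at this
  have e3 : X.Edge x (m • (n • y')) := by rwa [hm]
  have a1 := hT.kd_ne _ _ hxy
  have a2 := hT.kd_le x
  have a3 := hT.kd_le y
  by_cases c0 : kd x = 0
  · have := fix_cell2 hT ha c0 e1 e3
    exact ⟨1, one_smul _ _, by rw [one_smul, ← hm, this]⟩
  by_cases c1 : kd y = 0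
  · exact ⟨m, fix_cell2 hT ha c1 hyx e2, hm⟩
  by_cases c2 : kd x = 2
  · exact ⟨m, fix_hyp2 hT ha (by omega) c2 hyx e2, hm⟩
  · have := fix_hyp2 hT ha (by omega) (by omega) e1 e3
    exact ⟨1, one_smul _ _, by rw [one_smul, ← hm, this]⟩

/-- walks of hyperedges lift -/
theorem walk_lift (hT : TC2 X kd τ μ) (ha : TAct X kd τ N) (hq : IsQuo X kd τ Y kd' τ' q N) {p : W}
    {a b : U} (w : (HGr Y kd' (q p)).Walk a b) : ∀ a₀ : W, q a₀ = a → X.Edge a₀ p →
    ∃ b₀, q b₀ = b ∧ X.Edge b₀ p ∧ ∃ w₀ : (HGr X kd p).Walk a₀ b₀, w₀.length = w.length := by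
  induction w with
  | nil => exact fun a₀ h1 h2 => ⟨a₀, h1, h2, .nil, rfl⟩
  | @cons a c b h w ih =>
    rintro a₀ rfl h2
    obtain ⟨h3, g, ⟨g1, g2, g3, g4⟩, ⟨-, g6, -, g8⟩⟩ := h
    obtain ⟨g₀, rfl, k1⟩ := lift_tri2 hT ha hq h2 (Y.rot _ _ _ g4)
    obtain ⟨c₀, rfl, k2⟩ := lift_tri2 hT ha hq (X.edge _ _ _ (X.rot _ _ _ k1)) (rot2 g8)
    obtain ⟨b₀, h4, h5, w₀, h6⟩ := ih c₀ rfl (X.symm _ _ (ed2 k2))
    rw [hq.kd] at g1 g2 g3 g6
    have t1 : T3 X kd g₀ a₀ p := ⟨g1, g2, g3, rot2 k1⟩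
    have t2 : T3 X kd g₀ c₀ p := ⟨g1, g6, g3, X.rot _ _ _ k2⟩
    have hadj : (HGr X kd p).Adj a₀ c₀ := ⟨fun h => h3 (by rw [h]), g₀, t1, t2⟩
    refine ⟨b₀, h4, h5, .cons hadj w₀, ?_⟩
    exact congrArg (· + 1) h6

/-- fixed hyperedges at a fixed point are far -/
theorem fix_far (hT : TC2 X kd τ μ) (ha : TAct X kd τ N) {p : W} {n : N} (hn : n ≠ 1) (hp : n • p = p)
    {a b : W} (hab : a ≠ b) (hfa : n • a = a) (hfb : n • b = b) (w : (HGr X kd p).Walk a b) :
    μ (τ p) ≤ w.length := by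
  classical
  have hpath := w.bypass_isPath
  refine le_trans ?_ w.length_bypass_le_length
  generalize w.bypass = v at hpath
  clear w
  obtain ⟨j, hj⟩ : ∃ j, v.length = j + 1 := by
    rcases Nat.eq_zero_or_pos v.length with h | h
    · exact absurd (SimpleGraph.Walk.eq_of_length_eq_zero h) hab
    · exact ⟨v.length - 1, by omega⟩
  rw [hj]
  obtain ⟨e, he⟩ : ∃ e : ℕ → W, e = v.getVert := ⟨_, rfl⟩
  have he0 : e 0 = a := by rw [he]; exact v.getVert_zero
  have hej : e (j + 1) = b := by rw [he, ← hj]; exact v.getVert_length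
  have hadj : ∀ i, i ≤ j → (HGr X kd p).Adj (e i) (e (i + 1)) := by
    intro i hi
    rw [he]
    exact v.adj_getVert_succ (by omega)
  have hinj : ∀ i i', i ≤ j + 1 → i' ≤ j + 1 → e i = e i' → i = i' := by
    intro i i' hi hi' h
    rw [he] at h
    exact hpath.getVert_injOn (by simpa [hj] using hi) (by simpa [hj] using hi') h
  have hch : ∀ i, ∃ g, i ≤ j → T3 X kd g (e i) p ∧ T3 X kd g (e (i + 1)) p := by
    intro i
    by_cases hi : i ≤ j
    · obtain ⟨-, g, hg⟩ := hadj i hi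
      exact ⟨g, fun _ => hg⟩
    · exact ⟨a, fun h => absurd h hi⟩
  choose g hg using hch
  have hsm : ∀ {x y : W}, T3 X kd x y p → T3 X kd (n • x) (n • y) p := by
    rintro x y ⟨h1, h2, h3, h4⟩
    refine ⟨(kd_smul2 hT ha n x).trans h1, (kd_smul2 hT ha n y).trans h2, h3, ?_⟩
    have := ha.inv.tri n _ _ _ h4
    rwa [hp] at this
  have hgf : ∀ i, i ≤ j → n • g i ≠ g i := fun i hi h => hn (ha.free n _ (hg i hi).1.1 h)
  have hgg : ∀ i, i + 1 ≤ j → g i ≠ g (i + 1) := by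
    intro i hi h
    obtain ⟨h1, h2⟩ := hg i (by omega)
    obtain ⟨h3, h4⟩ := hg (i + 1) hi
    rw [← h] at h4
    obtain ⟨x, x', -, -, -, -, -, h5⟩ := hT.two (g i) p h1.1 h1.2.2.1 (ed2 h1.2.2.2)
    have k1 := h5 _ h1.2.2.2
    have k2 := h5 _ h2.2.2.2
    have k3 := h5 _ h4.2.2.2
    have d1 : e i ≠ e (i + 1) := fun h => by have := hinj _ _ (by omega) (by omega) h; omega
    have d2 : e (i + 1) ≠ e (i + 1 + 1) := fun h => by
      have := hinj _ _ (by omega) (by omega) h; omega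
    have d3 : e i ≠ e (i + 1 + 1) := fun h => by have := hinj _ _ (by omega) (by omega) h; omega
    rcases k1 with k1 | k1 <;> rcases k2 with k2 | k2 <;> rcases k3 with k3 | k3
    · exact d1 (k1.trans k2.symm)
    · exact d1 (k1.trans k2.symm)
    · exact d3 (k1.trans k3.symm)
    · exact d2 (k2.trans k3.symm)
    · exact d2 (k2.trans k3.symm)
    · exact d3 (k1.trans k3.symm)
    · exact d1 (k1.trans k2.symm)
    · exact d1 (k1.trans k2.symm)
  have hee : ∀ i, i ≤ j → e i ≠ e (i + 1) := fun i hi h => by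
    have := hinj _ _ (by omega) (by omega) h; omega
  have hS : Sq X kd p (2 * j + 1 + 1)
      (fun i => if i ≤ j then g i else if i ≤ 2 * j + 1 then n • g (2 * j + 1 - i) else g 0)
      (fun i => if i ≤ j then e (i + 1) else n • e (2 * j + 1 - i)) := by
    refine ⟨?_, ?_, ?_, ?_⟩
    · intro i hi
      by_cases h1 : i ≤ j
      · simp only [if_pos h1]
        exact (hg i h1).2
      · simp only [if_neg h1, if_pos (show i ≤ 2 * j + 1 by omega)]
        exact hsm (hg _ (by omega)).1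
    · intro i hi
      by_cases h1 : i + 1 ≤ j
      · simp only [if_pos h1, if_pos (show i ≤ j by omega)]
        exact (hg _ h1).1
      by_cases h2 : i ≤ j
      · obtain rfl : i = j := by omega
        simp only [if_neg h1, le_refl, if_true, if_pos (show i + 1 ≤ 2 * i + 1 by omega)]
        have h3 := hsm (hg i le_rfl).2
        rw [hej, hfb] at h3
        rw [hej, show 2 * i + 1 - (i + 1) = i by omega]
        exact h3
      by_cases h3 : i + 1 ≤ 2 * j + 1
      · simp only [if_neg h1, if_neg h2, if_pos h3]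
        have h4 := hsm (hg (2 * j + 1 - (i + 1)) (by omega)).2
        rwa [show 2 * j + 1 - (i + 1) + 1 = 2 * j + 1 - i by omega] at h4
      · simp only [if_neg h1, if_neg h2, if_neg h3]
        have h4 := (hg 0 (by omega)).1
        rw [show 2 * j + 1 - i = 0 by omega, he0, hfa]
        rwa [he0] at h4
    · intro i hi
      by_cases h1 : i + 1 ≤ j
      · simp only [if_pos h1, if_pos (show i ≤ j by omega)]
        exact hgg i h1
      by_cases h2 : i ≤ j
      · obtain rfl : i = j := by omega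
        simp only [if_neg h1, le_refl, if_true, if_pos (show i + 1 ≤ 2 * i + 1 by omega)]
        rw [show 2 * i + 1 - (i + 1) = i by omega]
        exact (hgf i le_rfl).symm
      by_cases h3 : i + 1 ≤ 2 * j + 1
      · simp only [if_neg h1, if_neg h2, if_pos h3, if_pos (show i ≤ 2 * j + 1 by omega)]
        intro h4
        have h5 := smul_left_cancel _ h4
        rw [show 2 * j + 1 - i = 2 * j + 1 - (i + 1) + 1 by omega] at h5
        exact hgg _ (by omega) h5.symm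
      · simp only [if_neg h1, if_neg h2, if_neg h3, if_pos (show i ≤ 2 * j + 1 by omega)]
        rw [show 2 * j + 1 - i = 0 by omega]
        exact hgf 0 (by omega)
    · intro i hi
      by_cases h1 : i + 1 ≤ j
      · simp only [if_pos h1, if_pos (show i ≤ j by omega)]
        exact (hee _ h1).symm
      by_cases h2 : i ≤ j
      · obtain rfl : i = j := by omega
        simp only [if_neg h1, le_refl, if_true]
        rw [show 2 * i + 1 - (i + 1) = i by omega, hej, ← hfb]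
        intro h3
        have h5 := smul_left_cancel _ h3
        rw [← hej] at h5
        exact hee _ le_rfl h5
      · simp only [if_neg h1, if_neg h2]
        intro h4
        have h5 := smul_left_cancel _ h4
        rw [show 2 * j + 1 - i = 2 * j + 1 - (i + 1) + 1 by omega] at h5
        exact hee _ (by omega) h5
  have hG := gy_of_sq hS
  simp only [Nat.zero_le, if_true, if_neg (show ¬ 2 * j + 1 ≤ j by omega), Nat.sub_self,
    if_neg (show ¬ 2 * j + 1 + 1 ≤ j by omega), if_neg (show ¬ 2 * j + 1 + 1 ≤ 2 * j + 1 by omega),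
    he0, hfa] at hG
  have := hT.gir p _ _ _ _ hG (fun h => hee 0 (by omega) (by rw [he0]; exact h.symm))
  omega

/-- the fixed hyperedges of the quotient -/
theorem fixP2 (hT : TC2 X kd τ μ) (ha : TAct X kd τ N) (hfull : Full X kd N)
    (hq : IsQuo X kd τ Y kd' τ' q N) : FixP2 Y kd' (fun p => μ (τ' p)) (FXq q N) := by
  constructor
  · intro e p he hp hep hfe
    obtain ⟨e0, rfl⟩ := hq.surj e
    obtain ⟨p0, rfl, h1⟩ := H52.FR.lift_edge ha hq hep
    obtain ⟨n, n1, n2⟩ := (fx_iff hq).1 hfe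
    rw [hq.kd] at he hp
    have h2 := ha.inv.edge n _ _ h1
    rw [n2] at h2
    exact (fx_iff hq).2 ⟨n, n1, fix_hyp2 hT ha he hp h1 h2⟩
  · intro e e' p he he' hp h1 h2 f1 f2 hne w
    obtain ⟨p0, rfl⟩ := hq.surj p
    obtain ⟨e0, rfl, h3⟩ := H52.FR.lift_edge ha hq (Y.symm _ _ h1)
    have hp0 : kd p0 = 2 := by rwa [← hq.kd]
    have he0 : kd e0 = 1 := by rwa [← hq.kd]
    obtain ⟨e1, rfl, h4, w₀, hw⟩ := walk_lift hT ha hq w e0 rfl (X.symm _ _ h3)
    have he1 : kd e1 = 1 := by rwa [← hq.kd]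
    obtain ⟨n, n1, n2⟩ := (fx_iff hq).1 f1
    have n3 : n • p0 = p0 := by
      have h5 := ha.inv.edge n _ _ (X.symm _ _ h3)
      rw [n2] at h5
      exact fix_hyp2 hT ha he0 hp0 (X.symm _ _ h3) h5
    obtain ⟨m, m1, m2⟩ := (fx_iff hq).1 f2
    have n4 : n • e1 = e1 := hfull e1 p0 m he1 hp0 h4 m1 m2 n n3
    have := fix_far hT ha n1 n3 (fun h => hne (by rw [h])) n2 n4 w₀
    rw [hw] at this
    show μ (τ' (q p0)) ≤ w.length
    rw [hq.ty]
    exact this

end gen

section quo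

open Pool.Agent.H98.FJ Pool.Agent.H93.TR Pool.Agent.H54.DD Pool.Agent.H54.AR

variable {P W T : Type} [Group P] [MulAction P W] {X : Cpx W} {kd : W → ℕ} {τ : W → T} {μ : T → ℕ}

/-- the quotient is a quotient -/
theorem isQuo_tquo2 (hT : TC2 X kd τ μ) (ha : TAct X kd τ P) (N : Subgroup P) :
    IsQuo X kd τ (tquo hT ha N) (qkd hT ha N) (qτ ha N) (orb N) N where
  surj := orb_surj N
  orb x y := by
    rw [orb_eq_iff]
    constructor
    · rintro ⟨n, hn, h⟩
      exact ⟨⟨n, hn⟩⁻¹, by rw [← h]; exact inv_smul_smul (⟨n, hn⟩ : N) y⟩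
    · rintro ⟨n, h⟩
      exact ⟨(n⁻¹).1, (n⁻¹).2, by rw [← h]; exact inv_smul_smul n x⟩
  edge a b := by
    constructor
    · rintro ⟨x, y, hx, hy, h⟩
      exact ⟨x, y, h, hx, hy⟩
    · rintro ⟨x, y, h, hx, hy⟩
      exact ⟨x, y, hx, hy, h⟩
  tri a b c := by
    constructor
    · rintro ⟨x, y, z, hx, hy, hz, h⟩
      exact ⟨x, y, z, h, hx, hy, hz⟩
    · rintro ⟨x, y, z, h, hx, hy, hz⟩
      exact ⟨x, y, z, hx, hy, hz, h⟩
  kd x := rfl
  ty x := rfl

end quo

end Pool.Agent.H54.AR2
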