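import Pool.Agent.H54.AR2.Fix
import Pool.Agent.H54.AR2.Trick
import Pool.Agent.H52.FR.Main

/-!
# The kernel acts on a tree: typed complexes with labels

The statement on rooted descending links (`RootedAll`) implies that the normal subgroup generated by elements with fixed
vertices is in the class.
-/

set_option autoImplicit false

namespace Pool.Agent.H54.AR2

open Pool.Agent.H98.FJ Pool.Agent.H54.CX Pool.Agent.H93.TR Pool.Agent.H54.DD Pool.Agent.H52.T2
open Pool.Agent.H59.DE (TAct Full Par Sh)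
open Pool.Agent.H52.FR (IsQuo FXq fx_iff Rooted lift_edge tact_sub edge_of_sc)
open Pool.Agent.H54.AR (CLK)

section sh

variable {W U T : Type} {X : Cpx W} {kd : W → ℕ} {τ : W → T} {μ : T → ℕ} {Y : Cpx U} {kd' : U → ℕ}
  {τ' : U → T} {q : W → U} {N : Type} [Group N] [MulAction N W]

theorem sh_of_rooted2 (hT : TC2 X kd τ μ) (ha : TAct X kd τ N) (hfull : Full X kd N) (hq : IsQuo X kd τ Y kd' τ' q N)
    {α : Type} [LinearOrder α] {R : U → α} {δ : U → U → ℕ} {o : W} (hR : Rooted Y kd' (FXq q N) R δ (q o)) :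
    Sh X N (fun x => R (q x)) (fun x y => δ (q x) (q y)) o := by
  have hqn : ∀ (n : N) (x : W), q (n • x) = q x := fun n x => ((hq.orb x (n • x)).2 ⟨n, rfl⟩).symm
  have hE : ∀ x y, X.Edge x y → Y.Edge (q x) (q y) := fun x y h => (hq.edge _ _).2 ⟨x, y, h, rfl, rfl⟩
  have hTr : ∀ x y z, X.Tri x y z → Y.Tri (q x) (q y) (q z) := fun x y z h =>
    (hq.tri _ _ _).2 ⟨x, y, z, h, rfl, rfl, rfl⟩
  have hkd : ∀ x y, X.Edge x y → kd x ≠ 0 → kd y ≠ 0 → (kd x = 2 ∧ kd y = 1) ∨ (kd x = 1 ∧ kd y = 2) := by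
    intro x y h hx hy
    have h1 := hT.kd_le x
    have h2 := hT.kd_le y
    have h3 := hT.kd_ne x y h
    omega
  refine
    { rk_ne := fun x y h => hR.rk _ _ (hE x y h)
      rk_inv := fun n x => by
        show R (q (n • x)) = R (q x)
        rw [hqn]
      dp_inv := fun n x y => by
        show δ (q (n • x)) (q (n • y)) = δ (q x) (q y)
        rw [hqn, hqn]
      dp_ne := fun x y z h h1 h2 => hR.ne _ _ _ (hTr x y z h) h1 h2
      dp_uniq := ?_
      orb := ?_
      stab := ?_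
      base := ?_ }
  · intro x y z z' hz hz' hy1 hz1 hz1' hd hd'
    have h1 : q z = q z' := hR.uniq _ _ _ _ (hTr _ _ _ hz) (hTr _ _ _ hz') hy1 hz1 hz1' hd hd'
    obtain ⟨n, rfl⟩ := (hq.orb z z').1 h1
    have hxy : X.Edge x y := X.edge _ _ _ hz
    have hyz : X.Edge y z := X.edge _ _ _ (X.rot _ _ _ hz)
    have hzx : X.Edge z x := X.edge _ _ _ (X.rot _ _ _ (X.rot _ _ _ hz))
    have hyz' : X.Edge y (n • z) := X.edge _ _ _ (X.rot _ _ _ hz')
    have hzx' : X.Edge (n • z) x := X.edge _ _ _ (X.rot _ _ _ (X.rot _ _ _ hz'))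
    by_cases hx0 : kd x = 0
    · exact (fix_cell2 hT ha hx0 (X.symm _ _ hzx) (X.symm _ _ hzx')).symm
    by_cases hy0 : kd y = 0
    · exact (fix_cell2 hT ha hy0 hyz hyz').symm
    have hz0 : kd z = 0 := by
      have e1 := hT.kd_le x
      have e2 := hT.kd_le y
      have e3 := hT.kd_le z
      have e4 := hT.kd_ne _ _ hxy
      have e5 := hT.kd_ne _ _ hyz
      have e6 := hT.kd_ne _ _ hzx
      omega
    have hz0' : kd (n • z) = 0 := by
      rw [hT.kd_τ _ _ (ha.type n z)]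
      exact hz0
    by_cases hn : n = 1
    · rw [hn, one_smul]
    exfalso
    have hzx2 : X.Edge (n • z) (n • x) := ha.inv.edge n _ _ hzx
    have hzy2 : X.Edge (n • z) (n • y) := ha.inv.edge n _ _ (X.symm _ _ hyz)
    have hfx : n • x = x := fix_cell2 hT ha hz0' hzx' hzx2
    have hfy : n • y = y := fix_cell2 hT ha hz0' (X.symm _ _ hyz') hzy2
    refine hR.crit _ _ _ (hTr _ _ _ hz) hy1 hz1 hd ?_
    rcases hkd x y hxy hx0 hy0 with ⟨h2, h3⟩ | ⟨h2, h3⟩
    · exact Or.inl ⟨by rw [hq.kd]; exact h2, by rw [hq.kd]; exact h3, (fx_iff hq).2 ⟨n, hn, hfy⟩⟩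
    · exact Or.inr ⟨by rw [hq.kd]; exact h2, by rw [hq.kd]; exact h3, (fx_iff hq).2 ⟨n, hn, hfx⟩⟩
  · intro x a a' h h'
    have hpar : ∀ b, Par X (fun x => R (q x)) (fun x y => δ (q x) (q y)) x b → Par Y R δ (q x) (q b) := by
      rintro b ⟨h1, h2, h3⟩
      refine ⟨hE _ _ h1, h2, fun c hc hc1 => ?_⟩
      obtain ⟨z, rfl, hz⟩ := lift_tri2 hT ha hq h1 hc
      exact h3 z hz hc1
    have h1 : q a = q a' := hR.root _ _ _ (hpar a h) (hpar a' h')
    obtain ⟨n, rfl⟩ := (hq.orb a a').1 h1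
    have e1 : X.Edge x a := h.1
    have e2 : X.Edge x (n • a) := h'.1
    have e3 : X.Edge (n • x) (n • a) := ha.inv.edge n _ _ e1
    by_cases ha0 : kd a = 0
    · have h4 : kd (n • a) = 0 := by
        rw [hT.kd_τ _ _ (ha.type n a)]
        exact ha0
      exact ⟨n, fix_cell2 hT ha h4 (X.symm _ _ e2) (X.symm _ _ e3), rfl⟩
    by_cases hx0 : kd x = 0
    · exact ⟨1, one_smul _ _, by rw [one_smul]; exact (fix_cell2 hT ha hx0 e1 e2).symm⟩
    rcases hkd x a e1 hx0 ha0 with ⟨h2, h3⟩ | ⟨h2, h3⟩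
    · have h4 : kd (n • a) = 1 := by
        rw [hT.kd_τ _ _ (ha.type n a)]
        exact h3
      exact ⟨n, fix_hyp2 hT ha h4 h2 (X.symm _ _ e2) (X.symm _ _ e3), rfl⟩
    · exact ⟨1, one_smul _ _, by rw [one_smul]; exact (fix_hyp2 hT ha h2 h3 e1 e2).symm⟩
  · intro x a h
    have e1 : X.Edge x a := h.1
    by_cases hx0 : kd x = 0
    · exact Or.inl fun n hn _ => ha.free n x hx0 hn
    by_cases ha0 : kd a = 0
    · exact Or.inl fun n _ hn => ha.free n a ha0 hn
    rcases hkd x a e1 hx0 ha0 with ⟨h2, h3⟩ | ⟨h2, h3⟩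
    · by_cases hex : ∃ n : N, n ≠ 1 ∧ n • a = a
      · obtain ⟨n, hn, hna⟩ := hex
        exact Or.inr fun n' hn' => hfull a x n h3 h2 (X.symm _ _ e1) hn hna n' hn'
      · refine Or.inl fun n _ hn => ?_
        by_contra hne
        exact hex ⟨n, hne, hn⟩
    · refine Or.inr fun n hn => ?_
      have e2 : X.Edge x (n • a) := by
        have e3 := ha.inv.edge n _ _ e1
        rwa [hn] at e3
      exact fix_hyp2 hT ha h2 h3 e1 e2
  · intro x hx
    have h1 : q x = q o := by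
      refine hR.base _ fun b hb hlt => ?_
      obtain ⟨y, rfl, hy⟩ := lift_edge ha hq hb
      exact hx y hy hlt
    exact (hq.orb o x).1 h1.symm

end sh

/-- the statement on rooted descending links -/
def RootedAll : Prop :=
  ∀ (U T : Type) (Y : Cpx U) (kd : U → ℕ) (τ : U → T) (μ : T → ℕ) (FX : U → Prop), TC2 Y kd τ μ →
    Y.SC → FixP2 Y kd (fun p => μ (τ p)) FX → (∀ x, ∃ y, Y.Edge x y) →
    ∃ (R : U → ℕ ×ₗ ℕ) (δ : U → U → ℕ) (o : U), Rooted Y kd FX R δ o

variable {W T P : Type} {X : Cpx W} {kd : W → ℕ} {τ : W → T} {μ : T → ℕ} [Group P] [MulAction P W]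

theorem n_mem2 (hR : RootedAll) {C : (G : Type) → [Group G] → Prop} (hC : Inherits C)
    (hE : Extension C) {Q : Type} [Group Q] (hT : TC2 X kd τ μ) (hsc : X.SC) (ha : TAct X kd τ P)
    (N : Subgroup P) {K : ℕ} (hK : ∀ p, kd p = 2 → 4 * μ (τ p) ≤ K) (hcl : CLK K X N)
    (hfull : Full X kd N)
    (hgen : N ≤ Subgroup.closure {n : P | n ∈ N ∧ ∃ v : W, n • v = v}) (hQ : C Q) (f : N →* Q)
    (hf : StabInj W f) : C N := by
  by_cases hne : ∃ a b, X.Edge a b
  · have hTY : TC2 (tquo hT ha N) (qkd hT ha N) (qτ ha N) μ := tquo_tc2 hK hcl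
    have hscY : (tquo hT ha N).SC := tquo_sc hsc hgen
    have hiq := isQuo_tquo2 hT ha N
    have haN := tact_sub ha N
    have hedge : ∀ x, ∃ y, (tquo hT ha N).Edge x y := by
      obtain ⟨a, b, h⟩ := hne
      intro x
      rcases edge_of_sc hscY (orb N a) x with h1 | h1
      · exact ⟨orb N b, a, b, h1.symm, rfl, h⟩
      · exact h1
    obtain ⟨R, δ, o, hR'⟩ := hR _ _ _ _ _ _ (FXq (orb N) N) hTY hscY (fixP2 hT haN hfull hiq) hedge
    obtain ⟨o', rfl⟩ := hiq.surj o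
    exact Pool.Agent.H34.RT.mem_of_sh hC hE haN.inv hsc
      (Pool.Agent.H34.RT.sh0_of_sh (sh_of_rooted2 hT haN hfull hiq hR')) hQ f hf
  · have hsub : ∀ x y : W, x = y := by
      intro x y
      rcases edge_of_sc hsc y x with h | ⟨z, h⟩
      · exact h
      · exact (hne ⟨x, z, h⟩).elim
    obtain ⟨v⟩ := hsc.nonempty
    refine hC.of_injective f ?_ hQ
    rw [injective_iff_map_eq_one]
    exact fun n hn => hf v n (hsub _ _) hn

end Pool.Agent.H54.AR2
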