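import Pool.Agent.H54.AR2.TqAct
import Pool.Agent.H54.AR.Sat

/-!
# Saturated subcomplexes of typed complexes and their covers are typed complexes
-/

set_option autoImplicit false

namespace Pool.Agent.H54.AR2

open Pool.Agent.H98.FJ Pool.Agent.H54.CX Pool.Agent.H54.CX.CV Pool.Agent.H54.DD Cls
open Pool.Agent.H52.T2
open Pool.Agent.H54.AR (sat sat_mono sat_finite cov_uniq cov_lift cov_lift_tri cov_tri_iff cov_tact third mid)

variable {G W T : Type} [Group G] [MulAction G W] {X : Cpx W} {kd : W → ℕ} {τ : W → T} {μ : T → ℕ}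

/-- a simply connected typed complex with an action -/
structure TA2 (G : Type) [Group G] {W T : Type} [MulAction G W] (X : Cpx W) (kd : W → ℕ)
    (τ : W → T) (μ : T → ℕ) : Prop where
  tc : TC2 X kd τ μ
  sc : X.SC
  act : H59.DE.TAct X kd τ G

theorem TA2.sub (h : TA2 G X kd τ μ) (K : Subgroup G) : TA2 K X kd τ μ where
  tc := h.tc
  sc := h.sc
  act :=
    { inv :=
        { edge := fun g a b e => h.act.inv.edge (g : G) a b e
          tri := fun g a b c e => h.act.inv.tri (g : G) a b c e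
          len := fun g a b e => h.act.inv.len (g : G) a b e }
      type := fun g x => h.act.type (g : G) x
      free := fun g c hc e => Subtype.ext (h.act.free (g : G) c hc e) }

section sub

variable (hT : TC2 X kd τ μ) (ha : H59.DE.TAct X kd τ G) {D : Set W}
include hT ha

/-- a translate of the cell is in the set -/
theorem sat_cell {c x : W} (hc : kd c = 0) {g : G} (h : g • c ∈ sat X kd D) (hx : X.Edge c x) :
    g • x ∈ sat X kd D := by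
  obtain ⟨d, hd, h1, h2⟩ := h
  rcases h2 with h2 | h2
  · exact ⟨d, hd, h1, Or.inr (by rw [h2]; exact ha.inv.edge g _ _ hx)⟩
  · have h3 := hT.kd_ne _ _ h2
    rw [hT.kd_τ _ _ (ha.type g c)] at h3
    omega

theorem sub_edge {c x y : W} (hc : kd c = 0) (h : (CX.sub X G (sat X kd D)).Edge c y)
    (hx : X.Edge c x) : (CX.sub X G (sat X kd D)).Edge c x := by
  obtain ⟨-, g, h1, -⟩ := h
  exact ⟨hx, g, h1, sat_cell hT ha hc h1 hx⟩

theorem sub_tri {c x y z : W} (hc : kd c = 0) (h : (CX.sub X G (sat X kd D)).Edge c z)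
    (hx : X.Tri c x y) : (CX.sub X G (sat X kd D)).Tri c x y := by
  obtain ⟨-, g, h1, -⟩ := h
  exact ⟨hx, g, h1, sat_cell hT ha hc h1 (X.edge _ _ _ hx), sat_cell hT ha hc h1 (third hx)⟩

theorem sub_tc2 : TC2 (CX.sub X G (sat X kd D)) kd τ μ where
  kd_le := hT.kd_le
  kd_ne x y h := hT.kd_ne x y h.1
  kd_τ := hT.kd_τ
  len x y h := hT.len x y h.1
  fill g e p hg he hp h1 h2 := sub_tri hT ha hg h1 (hT.fill g e p hg he hp h1.1 h2.1)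
  cell e p he hp h := by
    obtain ⟨h1, g, h2, h3⟩ := h
    obtain ⟨d, hd, hd0, h4⟩ := h2
    have hk : kd (g • e) = 1 := by rw [hT.kd_τ _ _ (ha.type g e), he]
    rcases h4 with h4 | h4
    · rw [h4] at hd0; omega
    · refine ⟨g⁻¹ • d, by rw [hT.kd_τ _ _ (ha.type g⁻¹ d), hd0], ?_, g, ?_, ?_⟩
      · have := ha.inv.edge g⁻¹ _ _ h4
        rwa [inv_smul_smul] at this
      · rw [smul_inv_smul]; exact ⟨d, hd, hd0, Or.inl rfl⟩
      · exact ⟨d, hd, hd0, Or.inr h4⟩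
  inj g x y hg h1 h2 h := hT.inj g x y hg h1.1 h2.1 h
  two g p hg hp h := by
    obtain ⟨e, e', h1, h2, h3, h4, h5, h6⟩ := hT.two g p hg hp h.1
    exact ⟨e, e', h1, h2, h3, sub_tri hT ha hg h h4, sub_tri hT ha hg h h5,
      fun x hx => h6 x hx.1⟩
  pts g e hg he h := by
    obtain ⟨p, q, h1, h2, h3, h4, h5⟩ := hT.pts g e hg he h.1
    exact ⟨p, q, h1, h2, h3, sub_tri hT ha hg h h4, sub_tri hT ha hg h h5⟩
  lg g e e' p q hg he he' hp hq hne h1 h2 h3 h4 :=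
    hT.lg g e e' p q hg he he' hp hq hne h1.1 h2.1 h3.1 h4.1
  mu := hT.mu
  k3 g e₁ e₂ e₃ p₁ p₂ p₃ h1 h2 h3 h4 h5 h6 :=
    hT.k3 g e₁ e₂ e₃ p₁ p₂ p₃ ⟨h1.1, h1.2.1, h1.2.2.1, h1.2.2.2.1⟩ ⟨h2.1, h2.2.1, h2.2.2.1, h2.2.2.2.1⟩
      ⟨h3.1, h3.2.1, h3.2.2.1, h3.2.2.2.1⟩ ⟨h4.1, h4.2.1, h4.2.2.1, h4.2.2.2.1⟩
      ⟨h5.1, h5.2.1, h5.2.2.1, h5.2.2.2.1⟩ ⟨h6.1, h6.2.1, h6.2.2.1, h6.2.2.2.1⟩
  gir p n f e g h hfe := by
    refine hT.gir p n f e g (gy_map (p' := p) id ?_ (fun _ _ _ _ _ h => h)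
      (fun _ _ _ _ _ h => h) h) hfe
    exact fun g e h => ⟨h.1, h.2.1, h.2.2.1, h.2.2.2.1⟩

end sub

section cov

theorem cov_tc2 {Y : Cpx W} (hT : TC2 Y kd τ μ) (x₀ : W) :
    TC2 (cov Y x₀) (fun p => kd (en p)) (fun p => τ (en p)) μ where
  kd_le _ := hT.kd_le _
  kd_ne _ _ h := hT.kd_ne _ _ h.1
  kd_τ _ _ h := hT.kd_τ _ _ h
  len _ _ h := hT.len _ _ h.1
  fill _ _ _ hg he hp h1 h2 := cov_tri_iff h1 h2 (hT.fill _ _ _ hg he hp h1.1 h2.1)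
  cell e p he hp h := by
    obtain ⟨g, hg, h1⟩ := hT.cell _ _ he hp h.1
    obtain ⟨g', hg', h2⟩ := cov_lift e (Y.symm _ _ h1)
    exact ⟨g', by rw [hg']; exact hg, (cov Y x₀).symm _ _ h2⟩
  inj g x y hg h1 h2 h := cov_uniq h1 h2 (hT.inj _ _ _ hg h1.1 h2.1 h)
  two g p hg hp h := by
    obtain ⟨e, e', h1, h2, h3, h4, h5, h6⟩ := hT.two _ _ hg hp h.1
    obtain ⟨e1, he1, k1⟩ := cov_lift_tri h (Y.swap _ _ _ (Y.rot _ _ _ (Y.rot _ _ _ h4)))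
    obtain ⟨e2, he2, k2⟩ := cov_lift_tri h (Y.swap _ _ _ (Y.rot _ _ _ (Y.rot _ _ _ h5)))
    have hr : ∀ {a b c : CV Y x₀}, (cov Y x₀).Tri a b c → (cov Y x₀).Tri a c b := fun h =>
      (cov Y x₀).swap _ _ _ ((cov Y x₀).rot _ _ _ ((cov Y x₀).rot _ _ _ h))
    refine ⟨e1, e2, fun h => h1 (by rw [← he1, ← he2, h]), by rw [he1]; exact h2,
      by rw [he2]; exact h3, hr k1, hr k2, ?_⟩
    intro x hx
    rcases h6 _ hx.1 with h7 | h7
    · exact Or.inl (cov_uniq ((cov Y x₀).edge _ _ _ hx) ((cov Y x₀).edge _ _ _ (hr k1))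
        (by rw [h7, he1]))
    · exact Or.inr (cov_uniq ((cov Y x₀).edge _ _ _ hx) ((cov Y x₀).edge _ _ _ (hr k2))
        (by rw [h7, he2]))
  pts g e hg he h := by
    obtain ⟨p, q, h1, h2, h3, h4, h5⟩ := hT.pts _ _ hg he h.1
    obtain ⟨p1, hp1, k1⟩ := cov_lift_tri h h4
    obtain ⟨q1, hq1, k2⟩ := cov_lift_tri h h5
    exact ⟨p1, q1, fun h => h1 (by rw [← hp1, ← hq1, h]), by rw [hp1]; exact h2,
      by rw [hq1]; exact h3, k1, k2⟩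
  lg g e e' p q hg he he' hp hq hne h1 h2 h3 h4 := by
    refine cov_uniq (third h1) (third h3) ?_
    refine hT.lg _ _ _ _ _ hg he he' hp hq ?_ h1.1 h2.1 h3.1 h4.1
    intro e
    exact hne (cov_uniq ((cov Y x₀).edge _ _ _ h1) ((cov Y x₀).edge _ _ _ h2) e)
  mu _ h := hT.mu _ h
  k3 g e₁ e₂ e₃ p₁ p₂ p₃ h1 h2 h3 h4 h5 h6 n1 n2 n3 := by
    obtain ⟨hg, he1, hp1, h1⟩ := h1
    obtain ⟨-, he2, -, h2⟩ := h2
    obtain ⟨-, -, hp2, h3⟩ := h3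
    obtain ⟨-, he3, -, h4⟩ := h4
    obtain ⟨-, -, hp3, h5⟩ := h5
    obtain ⟨-, -, -, h6⟩ := h6
    have hu : ∀ {b c b' c' : CV Y x₀}, (cov Y x₀).Tri g b c → (cov Y x₀).Tri g b' c' → b ≠ b' →
        en b ≠ en b' := fun h h' hne e => hne (cov_uniq ((cov Y x₀).edge _ _ _ h)
      ((cov Y x₀).edge _ _ _ h') e)
    exact hT.k3 _ _ _ _ _ _ _ ⟨hg, he1, hp1, h1.1⟩ ⟨hg, he2, hp1, h2.1⟩ ⟨hg, he2, hp2, h3.1⟩
      ⟨hg, he3, hp2, h4.1⟩ ⟨hg, he3, hp3, h5.1⟩ ⟨hg, he1, hp3, h6.1⟩ (hu h1 h2 n1) (hu h3 h4 n2)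
      (hu h5 h6 n3)
  gir p n f e g h hfe := by
    have hr : ∀ {a b : CV Y x₀}, (cov Y x₀).Tri a b p → (cov Y x₀).Edge p a := fun h =>
      (cov Y x₀).edge _ _ _ ((cov Y x₀).rot _ _ _ ((cov Y x₀).rot _ _ _ h))
    have hr' : ∀ {a b : CV Y x₀}, (cov Y x₀).Tri a b p → (cov Y x₀).Edge p b := fun h =>
      (cov Y x₀).symm _ _ (mid h)
    refine hT.gir (en p) n (en f) (en e) (en g) (gy_map en ?_ ?_ ?_ h) ?_
    · exact fun g e h => ⟨h.1, h.2.1, h.2.2.1, h.2.2.2.1⟩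
    · exact fun g g' e h h' e' => cov_uniq (hr h.2.2.2) (hr h'.2.2.2) e'
    · exact fun g e e' h h' e'' => cov_uniq (hr' h.2.2.2) (hr' h'.2.2.2) e''
    · intro h9
      exact hfe (cov_uniq (hr' (gy_fst h).2.2.2) (hr' (gy_lst h).2.2.2) h9)

end cov

end Pool.Agent.H54.AR2
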