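import Pool.Agent.H54.AR2.TqSC
import Pool.Agent.H54.AR2.Link2
import Pool.Agent.H54.AR.TqAct

/-!
# The action of the quotient group on the quotient of a typed complex
-/

set_option autoImplicit false

namespace Pool.Agent.H54.AR2

open Pool.Agent.H98.FJ Pool.Agent.H54.CX Pool.Agent.H93.TR Pool.Agent.H54.DD Pool.Agent.H54.AR
  Pool.Agent.H52.T2

variable {P W T : Type} [Group P] [MulAction P W] {X : Cpx W} {kd : W → ℕ} {τ : W → T}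
  {μ : T → ℕ}
  {N : Subgroup P} [N.Normal] {hT : TC2 X kd τ μ} {ha : H59.DE.TAct X kd τ P}

theorem tquo_inv : (tquo hT ha N).Inv (P ⧸ N) where
  edge := by
    rintro g i j ⟨a, b, rfl, rfl, h⟩
    obtain ⟨g, rfl⟩ := QuotientGroup.mk_surjective g
    exact ⟨g • a, g • b, rfl, rfl, ha.inv.edge g _ _ h⟩
  tri := by
    rintro g i j k ⟨a, b, c, rfl, rfl, rfl, h⟩
    obtain ⟨g, rfl⟩ := QuotientGroup.mk_surjective g
    exact ⟨g • a, g • b, g • c, rfl, rfl, rfl, ha.inv.tri g _ _ _ h⟩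
  len := by
    intro g i j _
    show L2 _ _ _ _ = L2 _ _ _ _
    rw [dsc_smul, dsc_smul, dsc_smul, dsc_smul]

theorem tquo_cocompact (hcc : X.Cocompact P) : (tquo hT ha N).Cocompact (P ⧸ N) := by
  obtain ⟨F, hF, h1, h2, h3⟩ := hcc
  refine ⟨orb N '' F, hF.image _, ?_, ?_, ?_⟩
  · intro i
    obtain ⟨a, rfl⟩ := orb_surj N i
    obtain ⟨g, hg⟩ := h1 a
    exact ⟨(g : P ⧸ N), ⟨_, hg, rfl⟩⟩
  · rintro i j ⟨a, b, rfl, rfl, h⟩
    obtain ⟨g, hg, hg'⟩ := h2 a b h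
    exact ⟨(g : P ⧸ N), ⟨_, hg, rfl⟩, ⟨_, hg', rfl⟩⟩
  · rintro i j k ⟨a, b, c, rfl, rfl, rfl, h⟩
    obtain ⟨g, hg, hg', hg''⟩ := h3 a b c h
    exact ⟨(g : P ⧸ N), ⟨_, hg, rfl⟩, ⟨_, hg', rfl⟩, ⟨_, hg'', rfl⟩⟩

/-- the quotient group is in the class -/
theorem tquo_mem {C : (G : Type) → [Group G] → Prop} (h2 : Cat2 C) (hT : TC2 X kd τ μ)
    (ha : H59.DE.TAct X kd τ P) (hsc : X.SC)
    (hcc : X.Cocompact P) (h : P →* Multiplicative ℤ) (M : ℕ) (hM : 0 < M)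
    (hN : ∀ (v : W) (g : P), g • v = v → (M : ℤ) ∣ Multiplicative.toAdd (h g) → g ∈ N)
    (hgen : N ≤ Subgroup.closure {n : P | n ∈ N ∧ ∃ v : W, n • v = v})
    {K : ℕ} (hK : ∀ p, kd p = 2 → 4 * μ (τ p) ≤ K) (hcl : CLK K X N) : C (P ⧸ N) :=
  h2 _ _ (tquo hT ha N) (tquo_sc hsc hgen) (tc_link2 (tquo_tc2 hK hcl)) tquo_inv
    (quo_stab h M hM hN) (tquo_cocompact hcc)

end Pool.Agent.H54.AR2
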