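import Pool.Agent.H54.AR2.TqTC

/-!
# The quotient of a simply connected typed complex by a group generated by elements with fixed vertices is simply
connected
-/

set_option autoImplicit false

namespace Pool.Agent.H54.AR2

open Pool.Agent.H98.FJ Pool.Agent.H54.CX Pool.Agent.H93.TR Pool.Agent.H54.DD Pool.Agent.H54.AR
  Pool.Agent.H52.T2 Cls

variable {P W T : Type} [Group P] [MulAction P W] {X : Cpx W} {kd : W → ℕ} {τ : W → T} {μ : T → ℕ}
  {N : Subgroup P} {hT : TC2 X kd τ μ} {ha : H59.DE.TAct X kd τ P}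

/-- the map of the classes of paths -/
noncomputable def prj (hT : TC2 X kd τ μ) (ha : H59.DE.TAct X kd τ P) (N : Subgroup P) :
    Cls X →* Cls (tquo hT ha N) :=
  Cls.lift (fun a => pt _ (orb N a)) (fun _ => stay _) (fun a b h => back ⟨a, b, rfl, rfl, h⟩)
    (fun a b c h => tri ⟨a, b, c, rfl, rfl, rfl, h⟩)

theorem prj_pt (a : W) : prj hT ha N (pt X a) = pt _ (orb N a) := lift_pt _ _ _ _ _

theorem prj_act {n : P} (hn : n ∈ N) (q : Cls X) :
    prj hT ha N (act ha.inv n q) = prj hT ha N q := by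
  have : (prj hT ha N).comp (act ha.inv n) = prj hT ha N := hom_ext (fun a => by
    rw [MonoidHom.comp_apply, act_pt, prj_pt, prj_pt, orb_smul N hn])
  exact DFunLike.congr_fun this q

theorem prj_pc {a b : W} {q : Cls X} (h : PC X a b q) :
    PC (tquo hT ha N) (orb N a) (orb N b) (prj hT ha N q) := by
  induction h with
  | base => rw [prj_pt]; exact PC.base
  | @step b c q h h' ih =>
    rw [map_mul, prj_pt]
    refine ih.step ?_
    rcases h' with h' | h'
    · exact Or.inl (by rw [h'])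
    · exact Or.inr ⟨b, c, rfl, rfl, h'⟩

/-- paths from `a` to `n a` become closed contractible paths -/
theorem prj_closed (hsc : X.SC) (hgen : N ≤ Subgroup.closure {n : P | n ∈ N ∧ ∃ v : W, n • v = v})
    {n : P} (hn : n ∈ N) (a : W) (q : Cls X) (hq : PC X a (n • a) q) :
    prj hT ha N q = pt _ (orb N a) := by
  obtain ⟨-, hconn, -⟩ := sc_iff.1 hsc
  have hmem : ∀ x ∈ Subgroup.closure {n : P | n ∈ N ∧ ∃ v : W, n • v = v}, x ∈ N := by
    intro x hx
    exact (Subgroup.closure_le N).2 (fun y hy => hy.1) hx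
  refine Subgroup.closure_induction (p := fun x hx => ∀ (a : W) (q : Cls X), PC X a (x • a) q →
    prj hT ha N q = pt _ (orb N a)) ?_ ?_ ?_ ?_ (hgen hn) a q hq
  · rintro x ⟨hx, v, hv⟩ a q hq
    obtain ⟨r, hr⟩ := hconn a v
    obtain ⟨r', hr', h1, h2⟩ := hr.exists_rev
    have h3 : PC X v (x • a) (act ha.inv x r') := by
      have := hr'.smul ha.inv x
      rwa [hv] at this
    rw [pc_unique hsc hq (hr.trans h3), map_mul, prj_act hx, ← map_mul, h1, prj_pt]
  · intro a q hq
    rw [one_smul] at hq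
    rw [pc_unique hsc hq PC.base, prj_pt]
  · intro x y hx hy ihx ihy a q hq
    obtain ⟨r, hr⟩ := hconn a (x • a)
    obtain ⟨s, hs'⟩ := hconn a (y • a)
    have h3 := hs'.smul ha.inv x
    rw [mul_smul] at hq
    rw [pc_unique hsc hq (hr.trans h3), map_mul, prj_act (hmem x hx), ihx a r hr, ihy a s hs', stay]
  · intro x hx ih a q hq
    have h1 := hq.smul ha.inv x
    rw [smul_inv_smul] at h1
    obtain ⟨r, hr, h2, h3⟩ := h1.exists_rev
    have h4 := ih a r hr
    have h5 : prj hT ha N (act ha.inv x q * r) = pt _ (orb N a) := by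
      rw [h2, prj_pt, orb_smul N (hmem x hx)]
    rw [map_mul, prj_act (hmem x hx), h4] at h5
    have h6 := prj_pc (N := N) (hT := hT) (ha := ha) hq
    rw [orb_smul N (N.inv_mem (hmem x hx))] at h6
    rwa [h6.mul_pt] at h5

/-- paths lift -/
theorem pc_lift {i j : Orb N W} {Q : Cls (tquo hT ha N)} (h : PC (tquo hT ha N) i j Q) {a : W}
    (ho : orb N a = i) : ∃ b q, orb N b = j ∧ PC X a b q ∧ prj hT ha N q = Q := by
  induction h with
  | base => exact ⟨a, pt X a, ho, PC.base, by rw [prj_pt, ho]⟩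
  | @step j k Q h h' ih =>
    obtain ⟨b, q, hb, hq, hQ⟩ := ih
    rcases h' with h' | h'
    · exact ⟨b, q * pt X b, by rw [hb, h'], hq.step (Or.inl rfl), by
        rw [map_mul, prj_pt, hQ, hb, h']⟩
    · subst hb
      obtain ⟨c, hc, hc'⟩ := edge_lift h'
      exact ⟨c, q * pt X c, hc, hq.step (Or.inr hc'), by rw [map_mul, prj_pt, hQ, hc]⟩

theorem tquo_sc (hsc : X.SC)
    (hgen : N ≤ Subgroup.closure {n : P | n ∈ N ∧ ∃ v : W, n • v = v}) : (tquo hT ha N).SC := by
  obtain ⟨⟨a₀⟩, hconn, -⟩ := sc_iff.1 hsc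
  refine sc_iff.2 ⟨⟨orb N a₀⟩, ?_, ?_⟩
  · intro i j
    obtain ⟨a, rfl⟩ := orb_surj N i
    obtain ⟨b, rfl⟩ := orb_surj N j
    obtain ⟨q, hq⟩ := hconn a b
    exact ⟨_, prj_pc hq⟩
  · intro i Q hQ
    obtain ⟨a, rfl⟩ := orb_surj N i
    obtain ⟨b, q, hb, hq, rfl⟩ := pc_lift hQ rfl
    obtain ⟨n, hn, rfl⟩ := (orb_eq_iff N _ _).1 hb
    exact prj_closed hsc hgen hn a q hq

end Pool.Agent.H54.AR2
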